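import Mathlib

/-!
Definitions for MP_26251e_nt: the colored p-ary partition numbers `d_m(n)`.
-/

namespace Pool.Agent.Lib.MP_26251e_nt

open PowerSeries Finset

/-- The geometric series `1/(1 - x^k) = 1 + x^k + x^(2k) + ...` (for `k ≥ 1`), as an integer
power series: its coefficient at `x^n` is `1` if `k ∣ n` and `0` otherwise. -/
noncomputable def geom (k : ℕ) : ℤ⟦X⟧ := PowerSeries.mk fun n => if k ∣ n then 1 else 0

/-- The truncated product `(1 - x)^(-m) * ∏_{j < J} (1 - x^(p^j))^(-(p-1)m)`. -/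
noncomputable def genTrunc (p m J : ℕ) : ℤ⟦X⟧ :=
  geom 1 ^ m * ∏ j ∈ range J, geom (p ^ j) ^ ((p - 1) * m)

/-- `d p m n` is `d_m(n)`, the coefficient of `x^n` in
`(1 - x)^(-m) * ∏_{j ≥ 0} (1 - x^(p^j))^(-(p-1)m)`; for `p ≥ 2` the factors with `j > n` do not
influence this coefficient because `p^j > n`, so the product is cut at `j ≤ n`. -/
noncomputable def d (p m n : ℕ) : ℤ := coeff n (genTrunc p m (n + 1))

end Pool.Agent.Lib.MP_26251e_nt
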