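import Mathlib
import Pool.Agent.Lib.MP_26251e_nt.Defs

namespace Pool.Agent.Lib.MP_26251e_nt

open PowerSeries Finset

theorem geom_mul (k : ℕ) (hk : 1 ≤ k) : (1 - X ^ k) * geom k = 1 := by
  ext n
  rw [sub_mul, one_mul, map_sub, PowerSeries.coeff_X_pow_mul', coeff_one]
  simp only [geom, coeff_mk]
  by_cases h0 : n = 0
  · subst h0
    simp; omega
  · simp only [h0, if_false]
    by_cases hkn : k ≤ n
    · simp only [hkn, if_true]
      by_cases hd : k ∣ n
      · have : k ∣ n - k := (Nat.dvd_sub hd (dvd_refl k))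
        simp [hd, this]
      · have : ¬ k ∣ n - k := by
          intro h
          apply hd
          have := Nat.dvd_add h (dvd_refl k)
          rwa [Nat.sub_add_cancel hkn] at this
        simp [hd, this]
    · have : ¬ k ∣ n := by
        intro h
        exact hkn (Nat.le_of_dvd (Nat.pos_of_ne_zero h0) h)
      simp [hkn, this]

theorem geom_modX (k : ℕ) : (X : ℤ⟦X⟧) ^ k ∣ geom k - 1 := by
  rw [PowerSeries.X_pow_dvd_iff]
  intro n hn
  simp only [geom, map_sub, coeff_mk, coeff_one]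
  by_cases h0 : n = 0
  · subst h0; simp
  · have : ¬ k ∣ n := fun h => absurd (Nat.le_of_dvd (Nat.pos_of_ne_zero h0) h) (by omega)
    simp [h0, this]

theorem expand_geom (p k : ℕ) (hp : p ≠ 0) :
    expand p hp (geom k) = geom (p * k) := by
  ext n
  rw [coeff_expand]
  simp only [geom, coeff_mk]
  by_cases h : p ∣ n
  · obtain ⟨q, rfl⟩ := h
    have : (p * k ∣ p * q) ↔ k ∣ q := Nat.mul_dvd_mul_iff_left (Nat.pos_of_ne_zero hp)
    simp [Nat.mul_div_cancel_left _ (Nat.pos_of_ne_zero hp), this]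
  · have : ¬ p * k ∣ n := fun h' => h (dvd_trans (dvd_mul_right p k) h')
    simp [h, this]

theorem genTrunc_succ (p m J : ℕ) :
    genTrunc p m (J + 1) = genTrunc p m J * geom (p ^ J) ^ ((p - 1) * m) := by
  rw [genTrunc, genTrunc, prod_range_succ, mul_assoc]

theorem coeff_genTrunc_succ (p m J n : ℕ) (hn : n < p ^ J) :
    coeff n (genTrunc p m (J + 1)) = coeff n (genTrunc p m J) := by
  have h1 : (X : ℤ⟦X⟧) ^ (p ^ J) ∣ geom (p ^ J) ^ ((p - 1) * m) - 1 := by
    have h2 := sub_dvd_pow_sub_pow (geom (p ^ J)) 1 ((p - 1) * m)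
    rw [one_pow] at h2
    exact (geom_modX (p ^ J)).trans h2
  have h3 : (X : ℤ⟦X⟧) ^ (p ^ J) ∣ genTrunc p m (J + 1) - genTrunc p m J := by
    have : genTrunc p m (J + 1) - genTrunc p m J
        = genTrunc p m J * (geom (p ^ J) ^ ((p - 1) * m) - 1) := by
      rw [genTrunc_succ]; ring
    rw [this]
    exact Dvd.dvd.mul_left h1 _
  rw [PowerSeries.X_pow_dvd_iff] at h3
  have := h3 n hn
  rw [map_sub] at this
  linarith

theorem coeff_genTrunc (p m n J : ℕ) (hp : 2 ≤ p) (hJ : n + 1 ≤ J) :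
    coeff n (genTrunc p m J) = d p m n := by
  induction J, hJ using Nat.le_induction with
  | base => rfl
  | succ J hJ ih =>
    rw [coeff_genTrunc_succ, ih]
    exact lt_of_lt_of_le (by omega) (Nat.lt_pow_self (by omega : 1 < p) (n := J)).le

/-- the full generating function of `d p m`. -/
noncomputable def gen (p m : ℕ) : ℤ⟦X⟧ := PowerSeries.mk (d p m)

theorem gen_modX (p m J : ℕ) (hp : 2 ≤ p) : (X : ℤ⟦X⟧) ^ J ∣ gen p m - genTrunc p m J := by
  rw [PowerSeries.X_pow_dvd_iff]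
  intro n hn
  rw [map_sub, coeff_genTrunc p m n J hp (by omega)]
  simp [gen]

/-- `E = (1 - x^p)/(1-x)^p`. -/
noncomputable def Eser (p : ℕ) : ℤ⟦X⟧ := (1 - X ^ p) * geom 1 ^ p

theorem Eser_mul (p : ℕ) : Eser p * (1 - X) ^ p = 1 - X ^ p := by
  have h := geom_mul 1 le_rfl
  rw [pow_one] at h
  rw [Eser, mul_assoc, ← mul_pow, mul_comm (geom 1), h, one_pow, mul_one]

theorem genTrunc_functional (p m J : ℕ) (hp : 1 ≤ p) :
    genTrunc p m (J + 1) = Eser p ^ m * expand p (by omega) (genTrunc p m J) := by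
  have hp0 : p ≠ 0 := by omega
  rw [genTrunc, genTrunc, map_mul, map_pow, map_prod, prod_range_succ']
  simp only [map_pow, expand_geom]
  rw [mul_one, pow_zero]
  have h2 : ∀ j, p * p ^ j = p ^ (j + 1) := fun j => by rw [pow_succ, mul_comm]
  simp only [h2]
  set P := ∏ j ∈ range J, geom (p ^ (j + 1)) ^ ((p - 1) * m)
  have h3 := geom_mul p hp
  have h4 : Eser p ^ m * geom p ^ m = geom 1 ^ (p * m) := by
    rw [Eser, ← mul_pow, mul_right_comm, h3, one_mul, pow_mul]
  calc geom 1 ^ m * (P * geom 1 ^ ((p - 1) * m)) = geom 1 ^ (m + (p - 1) * m) * P := by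
        rw [pow_add]; ring
    _ = geom 1 ^ (p * m) * P := by
        congr 2
        obtain ⟨q, rfl⟩ : ∃ q, p = q + 1 := ⟨p - 1, by omega⟩
        simp; ring
    _ = Eser p ^ m * (geom p ^ m * P) := by rw [← h4]; ring

theorem gen_functional (p m : ℕ) (hp : 2 ≤ p) :
    gen p m = Eser p ^ m * expand p (by omega) (gen p m) := by
  have hp0 : p ≠ 0 := by omega
  have key : ∀ J, (X : ℤ⟦X⟧) ^ J ∣ gen p m - Eser p ^ m * expand p hp0 (gen p m) := by
    intro J
    have h1 : (X : ℤ⟦X⟧) ^ J ∣ gen p m - genTrunc p m (J + 1) :=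
      (pow_dvd_pow X (Nat.le_succ J)).trans (gen_modX p m (J + 1) hp)
    have h2 : (X : ℤ⟦X⟧) ^ J ∣ Eser p ^ m * (expand p hp0 (gen p m) - expand p hp0 (genTrunc p m J)) := by
      apply Dvd.dvd.mul_left
      rw [← map_sub]
      obtain ⟨c, hc⟩ := gen_modX p m J hp
      rw [hc, map_mul, map_pow, expand_X, ← pow_mul]
      apply Dvd.dvd.mul_right
      exact pow_dvd_pow X (Nat.le_mul_of_pos_left J (by omega))
    have h3 := dvd_sub h1 h2
    rw [genTrunc_functional p m J (by omega)] at h3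
    have h4 : gen p m - Eser p ^ m * expand p hp0 (genTrunc p m J) -
        Eser p ^ m * (expand p hp0 (gen p m) - expand p hp0 (genTrunc p m J))
        = gen p m - Eser p ^ m * expand p hp0 (gen p m) := by ring
    rw [h4] at h3
    exact h3
  have : gen p m - Eser p ^ m * expand p hp0 (gen p m) = 0 := by
    ext n
    have := key (n + 1)
    rw [PowerSeries.X_pow_dvd_iff] at this
    rw [this n (by omega)]
    simp
  exact sub_eq_zero.mp this

/-- the operator `U : ∑ a_n x^n ↦ ∑ a_{pn} x^n`. -/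
noncomputable def U (p : ℕ) (A : ℤ⟦X⟧) : ℤ⟦X⟧ := PowerSeries.mk fun n => coeff (p * n) A

@[simp] theorem coeff_U (p n : ℕ) (A : ℤ⟦X⟧) : coeff n (U p A) = coeff (p * n) A := by
  simp [U]

theorem U_add (p : ℕ) (A B : ℤ⟦X⟧) : U p (A + B) = U p A + U p B := by
  ext n; simp

theorem U_sub (p : ℕ) (A B : ℤ⟦X⟧) : U p (A - B) = U p A - U p B := by
  ext n; simp

theorem U_C_mul (p : ℕ) (c : ℤ) (A : ℤ⟦X⟧) : U p (C c * A) = C c * U p A := by
  ext n; rw [coeff_U, coeff_C_mul, coeff_C_mul, coeff_U]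

theorem U_mul_expand (p : ℕ) (hp : p ≠ 0) (A B : ℤ⟦X⟧) :
    U p (B * expand p hp A) = U p B * A := by
  ext n
  rw [coeff_U, coeff_mul, coeff_mul]
  have hp' : 0 < p := Nat.pos_of_ne_zero hp
  symm
  -- image of the antidiagonal
  have hinj : Function.Injective (fun x : ℕ × ℕ => (p * x.1, p * x.2)) := by
    rintro ⟨a, b⟩ ⟨c, e⟩ h
    simp only [Prod.mk.injEq] at h
    have h1 := Nat.eq_of_mul_eq_mul_left hp' h.1
    have h2 := Nat.eq_of_mul_eq_mul_left hp' h.2
    rw [h1, h2]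
  have himg : ((antidiagonal n).map ⟨fun x : ℕ × ℕ => (p * x.1, p * x.2), hinj⟩) ⊆
      antidiagonal (p * n) := by
    intro x hx
    simp only [mem_map, HasAntidiagonal.mem_antidiagonal, Function.Embedding.coeFn_mk] at hx ⊢
    obtain ⟨y, hy, rfl⟩ := hx
    rw [← hy]; ring
  rw [← Finset.sum_subset himg]
  · rw [Finset.sum_map]
    apply Finset.sum_congr rfl
    intro x _
    simp
  · intro x hx hx'
    simp only [mem_map, HasAntidiagonal.mem_antidiagonal, Function.Embedding.coeFn_mk] at hx hx'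
    have : ¬ p ∣ x.2 := by
      rintro ⟨b, hb⟩
      apply hx'
      have h1 : p ∣ x.1 := by
        have : p ∣ x.1 + x.2 := by rw [hx]; exact dvd_mul_right p n
        exact (Nat.dvd_add_left (by rw [hb]; exact dvd_mul_right p b)).mp this
      obtain ⟨a, ha⟩ := h1
      refine ⟨(a, b), ?_, ?_⟩
      · rw [ha, hb, ← mul_add] at hx
        exact Nat.eq_of_mul_eq_mul_left hp' hx
      · ext <;> simp [ha, hb]
    rw [coeff_expand_of_not_dvd p hp _ this, mul_zero]

/-- `Ψ(F) = U(E^m F)` and `U(F·gen) = Ψ(F)·gen`. -/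
noncomputable def Psi (p m : ℕ) (F : ℤ⟦X⟧) : ℤ⟦X⟧ := U p (Eser p ^ m * F)

theorem U_mul_gen (p m : ℕ) (hp : 2 ≤ p) (F : ℤ⟦X⟧) :
    U p (F * gen p m) = Psi p m F * gen p m := by
  have hp0 : p ≠ 0 := by omega
  conv_lhs => rw [gen_functional p m hp]
  rw [← mul_assoc, U_mul_expand, Psi, mul_comm F]

/-- `Y = U(E^m) - 1` -/
noncomputable def Y (p m : ℕ) : ℤ⟦X⟧ := U p (Eser p ^ m) - 1

theorem U_gen_sub (p m : ℕ) (hp : 2 ≤ p) : U p (gen p m) - gen p m = Y p m * gen p m := by
  have h := U_mul_gen p m hp 1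
  rw [one_mul, Psi, mul_one] at h
  rw [h, Y, sub_mul, one_mul]

theorem U_iter_gen (p m r : ℕ) (hp : 2 ≤ p) (F : ℤ⟦X⟧) :
    (U p)^[r] (F * gen p m) = (Psi p m)^[r] F * gen p m := by
  induction r generalizing F with
  | zero => simp
  | succ r ih =>
    rw [Function.iterate_succ_apply, Function.iterate_succ_apply, U_mul_gen p m hp, ih]

theorem coeff_U_iter (p r n : ℕ) (A : ℤ⟦X⟧) : coeff n ((U p)^[r] A) = coeff (p ^ r * n) A := by
  induction r generalizing A with
  | zero => simp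
  | succ r ih =>
    rw [Function.iterate_succ_apply, ih, coeff_U, show p * (p ^ r * n) = p ^ (r + 1) * n by ring]

/-- the key expression for the difference. -/
theorem d_sub_d (p m r u : ℕ) (hp : 2 ≤ p) :
    d p m (p * (p ^ r * u)) - d p m (p ^ r * u) =
      coeff u ((Psi p m)^[r] (Y p m) * gen p m) := by
  rw [← U_iter_gen p m r hp, ← U_gen_sub p m hp, coeff_U_iter, map_sub, coeff_U]
  simp [gen]

end Pool.Agent.Lib.MP_26251e_nt
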