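import Mathlib
import Pool.Agent.Lib.MP_26251e_nt.A1

namespace Pool.Agent.Lib.MP_26251e_nt

open PowerSeries Finset

theorem dvdr {a b c : ℤ} (h : a ∣ b) (e : b = c) : a ∣ c := e ▸ h

/-- `A ∈ p^c ℒ₀`: the coefficient function is `p^c` times a 1-Lipschitz function vanishing at 0. -/
def Lip (p c : ℕ) (A : ℤ⟦X⟧) : Prop :=
  coeff 0 A = 0 ∧ ∀ k a b : ℕ, a ≡ b [MOD p ^ k] → ((p : ℤ) ^ (c + k)) ∣ coeff a A - coeff b A

theorem Lip.dvd {p c : ℕ} {A : ℤ⟦X⟧} (h : Lip p c A) (n : ℕ) : (p : ℤ) ^ c ∣ coeff n A := by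
  have := h.2 0 n 0 (by rw [pow_zero]; exact Nat.modEq_one)
  rwa [h.1, sub_zero, add_zero] at this

theorem Lip.add {p c : ℕ} {A B : ℤ⟦X⟧} (hA : Lip p c A) (hB : Lip p c B) : Lip p c (A + B) := by
  refine ⟨by rw [map_add, hA.1, hB.1, add_zero], fun k a b hab => ?_⟩
  have := dvd_add (hA.2 k a b hab) (hB.2 k a b hab)
  rw [map_add, map_add]
  exact dvdr this (by ring)

theorem Lip.zero {p c : ℕ} : Lip p c 0 := by
  refine ⟨by simp, fun k a b _ => by simp⟩

theorem Lip.mono {p c c' : ℕ} {A : ℤ⟦X⟧} (h : Lip p c A) (hc : c' ≤ c) : Lip p c' A :=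
  ⟨h.1, fun k a b hab => (pow_dvd_pow _ (by omega)).trans (h.2 k a b hab)⟩

theorem Lip.C_mul {p c e : ℕ} {A : ℤ⟦X⟧} (h : Lip p c A) {r : ℤ} (hr : (p : ℤ) ^ e ∣ r) :
    Lip p (c + e) (C r * A) := by
  refine ⟨by rw [coeff_C_mul, h.1, mul_zero], fun k a b hab => ?_⟩
  rw [coeff_C_mul, coeff_C_mul, ← mul_sub, show c + e + k = e + (c + k) by ring, pow_add]
  exact mul_dvd_mul hr (h.2 k a b hab)

theorem Lip.U {p c : ℕ} {A : ℤ⟦X⟧} (h : Lip p c A) : Lip p (c + 1) (U p A) := by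
  refine ⟨by rw [coeff_U, mul_zero, h.1], fun k a b hab => ?_⟩
  rw [coeff_U, coeff_U, show c + 1 + k = c + (k + 1) by ring]
  apply h.2 (k + 1)
  rw [pow_succ, mul_comm (p ^ k) p]
  exact Nat.ModEq.mul_left' p hab

theorem block_sum (p γ k t : ℕ) (φ : ℕ → ℤ)
    (h : ∀ s < t, ∀ j < p ^ k, (p : ℤ) ^ (γ + k) ∣ φ (p ^ k * s + j) - φ j) :
    (p : ℤ) ^ (γ + k) ∣ ∑ j ∈ range (p ^ k * t), φ j - t * ∑ j ∈ range (p ^ k), φ j := by
  induction t with
  | zero => simp
  | succ t ih =>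
    have h1 := ih (fun s hs => h s (by omega))
    have h2 : (p : ℤ) ^ (γ + k) ∣ ∑ j ∈ range (p ^ k), (φ (p ^ k * t + j) - φ j) :=
      Finset.dvd_sum fun j hj => h t (by omega) j (Finset.mem_range.mp hj)
    rw [Nat.mul_succ, Finset.sum_range_add]
    rw [Finset.sum_sub_distrib] at h2
    exact dvdr (dvd_add h1 h2) (by push_cast; ring)

theorem full_sum (p γ k : ℕ) (φ : ℕ → ℤ)
    (h : ∀ i a b, i ≤ k → a < p ^ k → b < p ^ k → a ≡ b [MOD p ^ i] →
      (p : ℤ) ^ (γ + i) ∣ φ a - φ b) (h0 : ∀ a < p ^ k, (p : ℤ) ^ γ ∣ φ a) (hp : 1 ≤ p) :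
    (p : ℤ) ^ (γ + k) ∣ p * ∑ j ∈ range (p ^ k), φ j := by
  induction k with
  | zero =>
    simp only [pow_zero, range_one, sum_singleton, add_zero]
    exact Dvd.dvd.mul_left (h0 0 (by simp)) _
  | succ k ih =>
    have hle : p ^ k ≤ p ^ (k + 1) := Nat.pow_le_pow_right hp (by omega)
    have h1 := ih (fun i a b hi ha hb hab => h i a b (by omega) (by omega) (by omega) hab)
      (fun a ha => h0 a (by omega))
    have h2 := block_sum p γ k p φ (fun s hs j hj => by
      apply h k _ _ (by omega)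
      · calc p ^ k * s + j < p ^ k * s + p ^ k := by omega
          _ = p ^ k * (s + 1) := by ring
          _ ≤ p ^ k * p := Nat.mul_le_mul_left _ hs
          _ = p ^ (k + 1) := by ring
      · omega
      · exact (Nat.ModEq.symm (by simp [Nat.ModEq])))
    have h3 : (p : ℤ) ^ (γ + (k + 1)) ∣
        p * (∑ j ∈ range (p ^ k * p), φ j - p * ∑ j ∈ range (p ^ k), φ j) := by
      rw [show γ + (k + 1) = (γ + k) + 1 by ring, pow_succ, mul_comm]
      exact mul_dvd_mul_left _ h2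
    have h4 : (p : ℤ) ^ (γ + (k + 1)) ∣ p * (p * ∑ j ∈ range (p ^ k), φ j) := by
      rw [show γ + (k + 1) = (γ + k) + 1 by ring, pow_succ, mul_comm]
      exact mul_dvd_mul_left _ h1
    exact dvdr (dvd_add h3 h4) (by rw [pow_succ]; ring)

theorem full_sum' (p γ k t : ℕ) (φ : ℕ → ℤ)
    (h : ∀ i a b, a < p ^ k * t → b < p ^ k * t → a ≡ b [MOD p ^ i] →
      (p : ℤ) ^ (γ + i) ∣ φ a - φ b) (h0 : ∀ a < p ^ k * t, (p : ℤ) ^ γ ∣ φ a) (hp : 1 ≤ p) :
    (p : ℤ) ^ (γ + k) ∣ p * ∑ j ∈ range (p ^ k * t), φ j := by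
  rcases Nat.eq_zero_or_pos t with rfl | ht
  · simp
  have hle : p ^ k ≤ p ^ k * t := Nat.le_mul_of_pos_right _ ht
  have h1 := full_sum p γ k φ (fun i a b _ ha hb hab => h i a b (by omega) (by omega) hab)
    (fun a ha => h0 a (by omega)) hp
  have h2 := block_sum p γ k t φ (fun s hs j hj => by
      apply h k
      · calc p ^ k * s + j < p ^ k * s + p ^ k := by omega
          _ = p ^ k * (s + 1) := by ring
          _ ≤ p ^ k * t := Nat.mul_le_mul_left _ hs
      · omega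
      · exact (Nat.ModEq.symm (by simp [Nat.ModEq])))
  have h3 : (p : ℤ) ^ (γ + k) ∣
        p * (∑ j ∈ range (p ^ k * t), φ j - t * ∑ j ∈ range (p ^ k), φ j) := Dvd.dvd.mul_left h2 _
  have h4 : (p : ℤ) ^ (γ + k) ∣ t * (p * ∑ j ∈ range (p ^ k), φ j) := Dvd.dvd.mul_left h1 _
  exact dvdr (dvd_add h3 h4) (by ring)

theorem Lip.mul {p a b : ℕ} {A B : ℤ⟦X⟧} (hp : 1 ≤ p) (hA : Lip p (a + 1) A) (hB : Lip p b B) :
    Lip p (a + b) (A * B) := by
  refine ⟨?_, ?_⟩
  · rw [coeff_mul]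
    simp [hB.1, hA.1]
  -- main estimate, for `y = x + p^k t`
  have key : ∀ k x t : ℕ, (p : ℤ) ^ (a + b + k) ∣
      coeff (x + p ^ k * t) (A * B) - coeff x (A * B) := by
    intro k x t
    rw [mul_comm A B, coeff_mul, coeff_mul,
      Finset.Nat.sum_antidiagonal_eq_sum_range_succ (fun i j => coeff i B * coeff j A),
      Finset.Nat.sum_antidiagonal_eq_sum_range_succ (fun i j => coeff i B * coeff j A)]
    rw [show (x + p ^ k * t).succ = p ^ k * t + x.succ by simp; ring, Finset.sum_range_add]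
    -- first part: full sum
    have h1 : (p : ℤ) ^ (a + b + k) ∣
        ∑ j ∈ range (p ^ k * t), coeff j B * coeff (x + p ^ k * t - j) A := by
      have := full_sum' p (a + 1 + b) k t (fun j => coeff j B * coeff (x + p ^ k * t - j) A) ?_ ?_ hp
      · have h5 : (p : ℤ) * (p : ℤ) ^ (a + b + k) ∣ p * ∑ j ∈ range (p ^ k * t), coeff j B * coeff (x + p ^ k * t - j) A := by
          have e6 : (p : ℤ) * (p : ℤ) ^ (a + b + k) = (p : ℤ) ^ (a + 1 + b + k) := by ring
          rw [e6]; exact this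
        exact (mul_dvd_mul_iff_left (by exact_mod_cast (by omega : p ≠ 0))).mp h5
      · intro i c e hc he hce
        have e1 : (coeff c B * coeff (x + p ^ k * t - c) A - coeff e B * coeff (x + p ^ k * t - e) A : ℤ) =
          coeff c B * (coeff (x + p ^ k * t - c) A - coeff (x + p ^ k * t - e) A) +
          (coeff c B - coeff e B) * coeff (x + p ^ k * t - e) A := by ring
        show _ ∣ _
        rw [e1]
        apply dvd_add
        · rw [show a + 1 + b + i = b + (a + 1 + i) by ring, pow_add]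
          apply mul_dvd_mul (hB.dvd c)
          apply hA.2
          -- difference of naturals
          have h6 : (x + p ^ k * t - c) + c = x + p ^ k * t := by omega
          have h7 : (x + p ^ k * t - e) + e = x + p ^ k * t := by omega
          have h8 : (x + p ^ k * t - c) + c ≡ (x + p ^ k * t - e) + e [MOD p ^ i] := by rw [h6, h7]
          exact Nat.ModEq.add_right_cancel hce h8
        · rw [show a + 1 + b + i = (b + i) + (a + 1) by ring, pow_add]
          exact mul_dvd_mul (hB.2 i c e hce) (hA.dvd _)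
      · intro c _
        show _ ∣ _
        rw [show a + 1 + b = b + (a + 1) by ring, pow_add]
        exact mul_dvd_mul (hB.dvd _) (hA.dvd _)
    have h2 : (p : ℤ) ^ (a + b + k) ∣
        ∑ j ∈ range x.succ, coeff (p ^ k * t + j) B * coeff (x + p ^ k * t - (p ^ k * t + j)) A -
        ∑ j ∈ range x.succ, coeff j B * coeff (x - j) A := by
      rw [← Finset.sum_sub_distrib]
      apply Finset.dvd_sum
      intro j hj
      rw [Finset.mem_range] at hj
      have h6 : x + p ^ k * t - (p ^ k * t + j) = x - j := by omega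
      rw [h6, ← sub_mul]
      have h7 := hB.2 k (p ^ k * t + j) j (by simp [Nat.ModEq])
      have h8 := hA.dvd (x - j)
      have h9 := mul_dvd_mul h7 h8
      refine dvd_trans ?_ h9
      rw [← pow_add]
      exact pow_dvd_pow _ (by omega)
    exact dvdr (dvd_add h1 h2) (by ring)
  intro k x y hxy
  rcases le_total x y with hle | hle
  · obtain ⟨t, ht⟩ := (Nat.modEq_iff_dvd' hle).mp hxy
    have : y = x + p ^ k * t := by omega
    rw [this, ← dvd_neg, neg_sub]
    exact key k x t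
  · obtain ⟨t, ht⟩ := (Nat.modEq_iff_dvd' hle).mp hxy.symm
    have : x = y + p ^ k * t := by omega
    rw [this]
    exact key k y t

theorem Lip.psi {p m c : ℕ} {F : ℤ⟦X⟧} (hp : 1 ≤ p) (hE : Lip p 1 (Eser p ^ m - 1))
    (hF : Lip p c F) : Lip p (c + 1) (Psi p m F) := by
  apply Lip.U
  have h1 : Eser p ^ m * F = (Eser p ^ m - 1) * F + F := by ring
  rw [h1]
  have h2 := Lip.mul (a := 0) hp hE hF
  rw [zero_add] at h2
  exact h2.add hF

theorem Lip.psi_iter {p m c : ℕ} {F : ℤ⟦X⟧} (hp : 1 ≤ p) (hE : Lip p 1 (Eser p ^ m - 1))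
    (hF : Lip p c F) (r : ℕ) : Lip p (c + r) ((Psi p m)^[r] F) := by
  induction r generalizing F c with
  | zero => simpa using hF
  | succ r ih =>
    rw [Function.iterate_succ_apply]
    have := ih (Lip.psi hp hE hF)
    rwa [show c + 1 + r = c + (r + 1) by ring] at this

theorem Lip_E_pow {p : ℕ} (hp : 1 ≤ p) (hE : Lip p 1 (Eser p - 1)) (m : ℕ) :
    Lip p 1 (Eser p ^ m - 1) := by
  induction m with
  | zero => simpa using Lip.zero
  | succ m ih =>
    have h1 : Eser p ^ (m + 1) - 1 =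
        (Eser p ^ m - 1) * (Eser p - 1) + ((Eser p ^ m - 1) + (Eser p - 1)) := by ring
    rw [h1]
    have h2 := Lip.mul (a := 0) hp ih hE
    rw [zero_add] at h2
    exact h2.add (ih.add hE)

/-- divisibility of the differences. -/
theorem dvd_of_Lip {p m c r : ℕ} (u : ℕ) (hp : 2 ≤ p) (hE : Lip p 1 (Eser p ^ m - 1))
    (hY : Lip p c (Y p m)) :
    (p : ℤ) ^ (c + r) ∣ d p m (p * (p ^ r * u)) - d p m (p ^ r * u) := by
  rw [d_sub_d p m r u hp, coeff_mul]
  apply Finset.dvd_sum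
  intro x _
  exact Dvd.dvd.mul_right ((Lip.psi_iter (by omega) hE hY r).dvd _) _

end Pool.Agent.Lib.MP_26251e_nt
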