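import Mathlib
import Pool.Agent.Lib.MP_26251e_nt.A2

namespace Pool.Agent.Lib.MP_26251e_nt

open PowerSeries Finset

theorem geom_one_mul : (1 - X : ℤ⟦X⟧) * geom 1 = 1 := by
  have := geom_mul 1 le_rfl
  rwa [pow_one] at this

/-- `h = x/(1-x)^2`. -/
noncomputable def h : ℤ⟦X⟧ := X * geom 1 ^ 2

theorem h_mul : h * (1 - X) ^ 2 = X := by
  rw [h, mul_assoc, ← mul_pow, mul_comm (geom 1), geom_one_mul, one_pow, mul_one]

theorem geom_one_eq : geom 1 = PowerSeries.mk 1 := by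
  ext n; simp [geom]

theorem coeff_h_pow (j n : ℕ) (hj : 1 ≤ j) :
    coeff n (h ^ j) = ((n + j - 1).choose (2 * j - 1) : ℤ) := by
  rw [h, mul_pow, ← pow_mul, PowerSeries.coeff_X_pow_mul', geom_one_eq,
    show 2 * j = (2 * j - 1) + 1 by omega, PowerSeries.mk_one_pow_eq_mk_choose_add]
  by_cases hn : j ≤ n
  · rw [if_pos hn, coeff_mk]
    congr 2
    omega
  · rw [if_neg hn, Nat.choose_eq_zero_of_lt (by omega)]
    simp

theorem dvd_pow_mul_choose {p : ℕ} (hp : p.Prime) (e k t i : ℕ) (hi : 1 ≤ i)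
    (hie : i < p ^ (e + 1)) : p ^ k ∣ p ^ e * (p ^ k * t).choose i := by
  rcases Nat.eq_zero_or_pos (p ^ k * t) with h0 | hpos
  · rw [h0, Nat.choose_eq_zero_of_lt hi]; simp
  obtain ⟨N, hN⟩ : ∃ N, p ^ k * t = N + 1 := ⟨p ^ k * t - 1, by omega⟩
  obtain ⟨i0, rfl⟩ : ∃ i0, i = i0 + 1 := ⟨i - 1, by omega⟩
  have h1 : (N + 1) * N.choose i0 = (N + 1).choose (i0 + 1) * (i0 + 1) := Nat.add_one_mul_choose_eq N i0
  obtain ⟨v, i', hi', hv⟩ := Nat.exists_eq_pow_mul_and_not_dvd (n := i0 + 1) (by omega) p hp.ne_one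
  have hve : v ≤ e := by
    by_contra hlt
    push Not at hlt
    have h2 : p ^ (e + 1) ≤ p ^ v := Nat.pow_le_pow_right hp.pos hlt
    have h3 : p ^ v ≤ i0 + 1 := Nat.le_of_dvd (by omega) (by rw [hv]; exact dvd_mul_right _ _)
    omega
  have h4 : p ^ k ∣ i' * (p ^ v * (p ^ k * t).choose (i0 + 1)) := by
    have : i' * (p ^ v * (p ^ k * t).choose (i0 + 1)) = (N + 1) * N.choose i0 := by
      rw [h1, hN, hv]; ring
    rw [this, ← hN, mul_assoc]
    exact dvd_mul_right _ _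
  have h5 : Nat.Coprime (p ^ k) i' := Nat.Coprime.pow_left k ((Nat.Prime.coprime_iff_not_dvd hp).mpr hi')
  have h6 := h5.dvd_of_dvd_mul_left h4
  exact h6.trans (Nat.mul_dvd_mul_right (pow_dvd_pow p hve) _)

theorem Lip_h_pow {p : ℕ} (hp : p.Prime) (c e j : ℕ) (hj : 1 ≤ j) (hje : 2 * j - 1 < p ^ (e + 1))
    (r : ℤ) (hr : (p : ℤ) ^ (c + e) ∣ r) : Lip p c (C r * h ^ j) := by
  refine ⟨?_, ?_⟩
  · rw [coeff_C_mul, coeff_h_pow j 0 hj, Nat.choose_eq_zero_of_lt (by omega)]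
    simp
  have key : ∀ k a t : ℕ, (p : ℤ) ^ (c + k) ∣
      coeff (a + p ^ k * t) (C r * h ^ j) - coeff a (C r * h ^ j) := by
    intro k a t
    rw [coeff_C_mul, coeff_C_mul, ← mul_sub, coeff_h_pow _ _ hj, coeff_h_pow _ _ hj]
    have e1 : a + p ^ k * t + j - 1 = (a + j - 1) + p ^ k * t := by omega
    rw [e1, Nat.add_choose_eq]
    have e2 : ((∑ ij ∈ HasAntidiagonal.antidiagonal (2 * j - 1), (a + j - 1).choose ij.1 * (p ^ k * t).choose ij.2 : ℕ) : ℤ) -
        (((a + j - 1).choose (2 * j - 1) : ℕ) : ℤ) =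
        ∑ ij ∈ (HasAntidiagonal.antidiagonal (2 * j - 1)).erase (2 * j - 1, 0),
          (((a + j - 1).choose ij.1 : ℤ) * ((p ^ k * t).choose ij.2 : ℤ)) := by
      rw [← Finset.add_sum_erase (HasAntidiagonal.antidiagonal (2 * j - 1)) _
        (show (2 * j - 1, 0) ∈ HasAntidiagonal.antidiagonal (2 * j - 1) by
          rw [HasAntidiagonal.mem_antidiagonal]; rfl)]
      push_cast
      simp
    rw [e2, Finset.mul_sum]
    apply Finset.dvd_sum
    rintro ⟨i1, i2⟩ hi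
    rw [Finset.mem_erase, HasAntidiagonal.mem_antidiagonal] at hi
    obtain ⟨hne, hsum⟩ := hi
    have hi2 : 1 ≤ i2 := by
      rcases Nat.eq_zero_or_pos i2 with h0 | h0
      · exfalso; apply hne; subst h0; simp at hsum ⊢; exact hsum
      · exact h0
    have h1 := dvd_pow_mul_choose hp e k t i2 hi2 (by simp at hsum; omega)
    have h2 : (p : ℤ) ^ k ∣ (p : ℤ) ^ e * ((p ^ k * t).choose i2 : ℤ) := by exact_mod_cast h1
    obtain ⟨r', rfl⟩ := hr
    have h3 : (p : ℤ) ^ (c + k) ∣ (p : ℤ) ^ c * ((p : ℤ) ^ e * ((p ^ k * t).choose i2 : ℤ)) := by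
      rw [pow_add]; exact mul_dvd_mul_left _ h2
    exact dvdr (Dvd.dvd.mul_left h3 (r' * ((a + j - 1).choose i1 : ℤ))) (by rw [pow_add]; ring)
  intro k x y hxy
  rcases le_total x y with hle | hle
  · obtain ⟨t, ht⟩ := (Nat.modEq_iff_dvd' hle).mp hxy
    have : y = x + p ^ k * t := by omega
    rw [this, ← dvd_neg, neg_sub]
    exact key k x t
  · obtain ⟨t, ht⟩ := (Nat.modEq_iff_dvd' hle).mp hxy.symm
    have : x = y + p ^ k * t := by omega
    rw [this]
    exact key k y t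

/-- evaluation of integer polynomials at `h`. -/
noncomputable def ah : Polynomial ℤ →ₐ[ℤ] ℤ⟦X⟧ := Polynomial.aeval h

theorem ah_X : ah Polynomial.X = h := by simp [ah]

theorem X_dvd_h : (X : ℤ⟦X⟧) ∣ h := by rw [h]; exact dvd_mul_right _ _

theorem h_unit : h = X * geom 1 ^ 2 := rfl

theorem exists_poly (A : ℤ⟦X⟧) (N : ℕ) : ∃ G : Polynomial ℤ, G.natDegree ≤ N ∧
    (X : ℤ⟦X⟧) ^ (N + 1) ∣ A - ah G := by
  induction N with
  | zero =>
    refine ⟨Polynomial.C (coeff 0 A), by simp, ?_⟩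
    rw [zero_add, PowerSeries.X_pow_dvd_iff]
    intro m hm
    have : m = 0 := by omega
    subst this
    simp [ah]
  | succ N ih =>
    obtain ⟨G, hG, c, hc⟩ := ih
    refine ⟨G + Polynomial.C (coeff 0 c) * Polynomial.X ^ (N + 1), ?_, ?_⟩
    · apply (Polynomial.natDegree_add_le _ _).trans
      apply max_le (by omega)
      exact (Polynomial.natDegree_C_mul_X_pow_le _ _)
    · have e1 : A - ah (G + Polynomial.C (coeff 0 c) * Polynomial.X ^ (N + 1)) =
          X ^ (N + 1) * (c - C (coeff 0 c) * geom 1 ^ (2 * (N + 1))) := by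
        rw [map_add, map_mul, map_pow, ah_X, ← sub_sub, hc, mul_sub]
        congr 1
        rw [h, mul_pow, ← pow_mul]
        have : ah (Polynomial.C (coeff 0 c)) = C (coeff 0 c) := by
          rw [ah, Polynomial.aeval_C]; rfl
        rw [this]; ring
      rw [e1, pow_succ _ (N + 1)]
      apply mul_dvd_mul_left
      rw [PowerSeries.X_dvd_iff]
      rw [map_sub, map_mul, map_pow]
      have : constantCoeff (geom 1) = 1 := by
        rw [← coeff_zero_eq_constantCoeff_apply]; simp [geom]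
      rw [this]
      simp

theorem coeff_ah_trunc (G : Polynomial ℤ) (N n : ℕ) (hG : G.natDegree ≤ N) :
    coeff n (ah G) = ∑ j ∈ range (N + 1), coeff n (C (G.coeff j) * h ^ j) := by
  rw [ah, Polynomial.aeval_eq_sum_range' (n := N + 1) (by omega)]
  rw [map_sum]
  apply Finset.sum_congr rfl
  intro j _
  rw [coeff_C_mul, coeff_smul, smul_eq_mul]

/-- assembling a Lipschitz bound from the `h`-coefficients. -/
theorem Lip_of_coeffs {p : ℕ} (hp : p.Prime) (c : ℕ) (A : ℤ⟦X⟧) (hA0 : coeff 0 A = 0)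
    (hyp : ∀ N (G : Polynomial ℤ), (X : ℤ⟦X⟧) ^ (N + 1) ∣ A - ah G → ∀ j, 1 ≤ j → j ≤ N →
      ∃ e, 2 * j - 1 < p ^ (e + 1) ∧ (p : ℤ) ^ (c + e) ∣ G.coeff j) : Lip p c A := by
  refine ⟨hA0, fun k a b hab => ?_⟩
  obtain ⟨G, hG, hdvd⟩ := exists_poly A (max a b)
  have hyp' := hyp (max a b) G hdvd
  rw [PowerSeries.X_pow_dvd_iff] at hdvd
  have h1 : ∀ n, n ≤ max a b → coeff n A = coeff n (ah G) := by
    intro n hn
    have := hdvd n (by omega)
    rw [map_sub] at this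
    linarith
  rw [h1 a (le_max_left _ _), h1 b (le_max_right _ _), coeff_ah_trunc G _ a hG,
    coeff_ah_trunc G _ b hG, ← Finset.sum_sub_distrib]
  apply Finset.dvd_sum
  intro j hj
  rw [Finset.mem_range] at hj
  rcases Nat.eq_zero_or_pos j with rfl | hj1
  · have h2 : G.coeff 0 = 0 := by
      have := h1 0 (by omega)
      rw [hA0, coeff_ah_trunc G _ 0 hG, Finset.sum_range_succ'] at this
      simp only [coeff_C_mul, pow_zero, mul_one] at this
      rw [Finset.sum_eq_zero] at this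
      · have h3 : coeff 0 (C (G.coeff 0) : ℤ⟦X⟧) = G.coeff 0 := by
          rw [coeff_C, if_pos rfl]
        rw [h3] at this
        linarith
      · intro i _
        rw [coeff_h_pow _ _ (by omega), Nat.choose_eq_zero_of_lt (by omega)]
        simp
    rw [h2]; simp
  · obtain ⟨e, he, hd⟩ := hyp' j hj1 (by omega)
    exact (Lip_h_pow hp c e j hj1 he _ hd).2 k a b hab

end Pool.Agent.Lib.MP_26251e_nt
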