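import Mathlib
import Pool.Agent.Lib.MP_26251e_nt.A3

namespace Pool.Agent.Lib.MP_26251e_nt

open PowerSeries Finset

/-- polynomials with `P_n(h) = (1 - x^(2n+1))/(1-x)^(2n+1)`. -/
noncomputable def Pseq : ℕ → Polynomial ℤ
  | 0 => 1
  | 1 => 1 + 3 * Polynomial.X
  | (n + 2) => (1 + 2 * Polynomial.X) * Pseq (n + 1) - Polynomial.X ^ 2 * Pseq n

theorem Pseq_spec (n : ℕ) : ah (Pseq n) * (1 - X) ^ (2 * n + 1) = 1 - X ^ (2 * n + 1) := by
  induction n using Nat.strong_induction_on with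
  | _ n ih =>
    match n with
    | 0 => simp [Pseq]
    | 1 =>
      simp only [Pseq, map_add, map_one, map_mul, ah_X]
      have h3 : ah (3 : Polynomial ℤ) = 3 := map_ofNat ah 3
      rw [h3]
      have := h_mul
      calc (1 + 3 * h) * (1 - X) ^ (2 * 1 + 1) = (1 - X) ^ 3 + 3 * (h * (1 - X) ^ 2) * (1 - X) := by ring
        _ = 1 - X ^ (2 * 1 + 1) := by rw [h_mul]; ring
    | (n + 2) =>
      have h0 := ih n (by omega)
      have h1 := ih (n + 1) (by omega)
      simp only [Pseq, map_add, map_one, map_mul, ah_X, map_sub, map_pow]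
      have h3 : ah (2 : Polynomial ℤ) = 2 := map_ofNat ah 2
      rw [h3]
      calc ((1 + 2 * h) * ah (Pseq (n + 1)) - h ^ 2 * ah (Pseq n)) * (1 - X) ^ (2 * (n + 2) + 1)
          = ((1 - X) ^ 2 + 2 * (h * (1 - X) ^ 2)) * (ah (Pseq (n + 1)) * (1 - X) ^ (2 * (n + 1) + 1))
            - (h * (1 - X) ^ 2) ^ 2 * (ah (Pseq n) * (1 - X) ^ (2 * n + 1)) := by ring
        _ = 1 - X ^ (2 * (n + 2) + 1) := by rw [h_mul, h0, h1]; ring

theorem Pseq_natDegree (n : ℕ) : (Pseq n).natDegree ≤ n := by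
  induction n using Nat.strong_induction_on with
  | _ n ih =>
    match n with
    | 0 => simp [Pseq]
    | 1 =>
      simp only [Pseq]
      compute_degree
    | (n + 2) =>
      have h0 := ih n (by omega)
      have h1 := ih (n + 1) (by omega)
      simp only [Pseq]
      have e1 : (1 + 2 * Polynomial.X : Polynomial ℤ).natDegree ≤ 1 := by compute_degree
      apply (Polynomial.natDegree_sub_le _ _).trans
      apply max_le
      · apply (Polynomial.natDegree_mul_le).trans; omega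
      · apply (Polynomial.natDegree_mul_le).trans
        rw [Polynomial.natDegree_X_pow]; omega

theorem Pseq_coeff_top (n : ℕ) : (Pseq n).coeff n = 2 * n + 1 := by
  induction n using Nat.strong_induction_on with
  | _ n ih =>
    match n with
    | 0 => simp [Pseq]
    | 1 =>
      simp only [Pseq]
      rw [Polynomial.coeff_add, Polynomial.coeff_one]
      rw [show (3 : Polynomial ℤ) = Polynomial.C 3 by rfl, Polynomial.coeff_C_mul, Polynomial.coeff_X_one]
      norm_num
    | (n + 2) =>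
      have h0 := ih n (by omega)
      have h1 := ih (n + 1) (by omega)
      simp only [Pseq]
      rw [Polynomial.coeff_sub, add_mul, one_mul, Polynomial.coeff_add,
        show (2 : Polynomial ℤ) = Polynomial.C 2 by rfl, mul_assoc, Polynomial.coeff_C_mul,
        Polynomial.coeff_X_mul, h1, Polynomial.coeff_X_pow_mul, h0,
        Polynomial.coeff_eq_zero_of_natDegree_lt (lt_of_le_of_lt (Pseq_natDegree (n + 1)) (by omega))]
      push_cast; ring

theorem Pseq_coeff_zero (n : ℕ) : (Pseq n).coeff 0 = 1 := by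
  induction n using Nat.strong_induction_on with
  | _ n ih =>
    match n with
    | 0 => simp [Pseq]
    | 1 =>
      simp [Pseq]
    | (n + 2) =>
      have h0 := ih n (by omega)
      have h1 := ih (n + 1) (by omega)
      simp only [Pseq]
      rw [Polynomial.coeff_sub, Polynomial.mul_coeff_zero, Polynomial.mul_coeff_zero, h1]
      simp

theorem Eser_eq (q : ℕ) : Eser (2 * q + 1) = ah (Pseq q) := by
  have h1 := Eser_mul (2 * q + 1)
  have h2 := Pseq_spec q
  have h3 : (1 - X : ℤ⟦X⟧) ^ (2 * q + 1) ≠ 0 := by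
    apply pow_ne_zero
    intro h0
    have := congrArg (coeff 0) h0
    simp at this
  exact mul_right_cancel₀ h3 (h1.trans h2.symm)

/-- `θ A = x A'`. -/
noncomputable def θ (A : ℤ⟦X⟧) : ℤ⟦X⟧ := X * PowerSeries.derivative ℤ A

theorem coeff_θ (A : ℤ⟦X⟧) (n : ℕ) : coeff n (θ A) = n * coeff n A := by
  rw [θ]
  cases n with
  | zero => simp
  | succ n =>
    rw [coeff_succ_X_mul, coeff_derivative]
    push_cast; ring

theorem θ_ah (F : Polynomial ℤ) : θ (ah F) = ah (Polynomial.derivative F) * θ h := by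
  rw [θ, θ, ah, Derivation.map_aeval, smul_eq_mul]; ring

theorem U_θ (p : ℕ) (A : ℤ⟦X⟧) : U p (θ A) = C (p : ℤ) * θ (U p A) := by
  ext n
  rw [coeff_U, coeff_θ, coeff_C_mul, coeff_θ, coeff_U]
  push_cast; ring

theorem θ_h_mul : θ h * (1 - X) ^ 3 = X * (1 + X) := by
  have h1 := congrArg (PowerSeries.derivative ℤ) h_mul
  rw [Derivation.leibniz, Derivation.leibniz_pow, map_sub, derivative_X] at h1
  have h2 : PowerSeries.derivative ℤ (1 : ℤ⟦X⟧) = 0 := derivative_one
  rw [h2] at h1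
  simp only [smul_eq_mul, nsmul_eq_mul, Nat.cast_ofNat] at h1
  have h3 : PowerSeries.derivative ℤ h * (1 - X) ^ 2 = 1 + 2 * (1 - X) * h := by
    linear_combination h1
  rw [θ]
  calc X * PowerSeries.derivative ℤ h * (1 - X) ^ 3 = X * (1 - X) * (PowerSeries.derivative ℤ h * (1 - X) ^ 2) := by ring
    _ = X * ((1 - X) + 2 * (h * (1 - X) ^ 2)) := by rw [h3]; ring
    _ = X * (1 + X) := by rw [h_mul]; ring

theorem h_pow_θ (i : ℕ) : h ^ i * θ h * (1 - X) ^ (2 * i + 3) = X ^ (i + 1) * (1 + X) := by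
  calc h ^ i * θ h * (1 - X) ^ (2 * i + 3) = (h * (1 - X) ^ 2) ^ i * (θ h * (1 - X) ^ 3) := by
        rw [mul_pow, ← pow_mul, pow_add]; ring
    _ = X ^ (i + 1) * (1 + X) := by rw [h_mul, θ_h_mul]; ring

theorem coeff_mid (s : ℕ) : coeff (s + 1) ((1 + X : ℤ⟦X⟧) * (1 - X) ^ (2 * s + 1)) = 0 := by
  have e1 : ((1 + X : ℤ⟦X⟧) * (1 - X) ^ (2 * s + 1)) =
      (((1 + Polynomial.X) * (-(Polynomial.X + Polynomial.C (-1 : ℤ))) ^ (2 * s + 1) : Polynomial ℤ) : ℤ⟦X⟧) := by
    push_cast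
    congr 1
    congr 1
    simp; ring
  rw [e1, Polynomial.coeff_coe, add_mul, one_mul, Polynomial.coeff_add, Polynomial.coeff_X_mul,
    neg_pow, ← Polynomial.C_1, ← Polynomial.C_neg, ← Polynomial.C_pow, Polynomial.coeff_C_mul,
    Polynomial.coeff_C_mul, Polynomial.coeff_X_add_C_pow, Polynomial.coeff_X_add_C_pow,
    Nat.choose_symm_half]
  rw [show 2 * s + 1 - (s + 1) = s by omega, show 2 * s + 1 - s = s + 1 by omega]
  ring

theorem coeff_functional (W : Polynomial ℤ) (k : ℕ) (hk : 1 ≤ k) :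
    coeff k (ah W * θ h * (1 - X) ^ (2 * k)) = W.coeff (k - 1) := by
  induction W using Polynomial.induction_on' with
  | add P Q hP hQ => rw [map_add, add_mul, add_mul, map_add, hP, hQ, Polynomial.coeff_add]
  | monomial i a =>
    rw [Polynomial.coeff_monomial]
    have e0 : ah (Polynomial.monomial i a) = C a * h ^ i := by
      rw [← Polynomial.C_mul_X_pow_eq_monomial, map_mul, map_pow, ah_X, ah, Polynomial.aeval_C]; rfl
    rw [e0, mul_assoc, mul_assoc, coeff_C_mul, ← mul_assoc]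
    suffices hs : coeff k (h ^ i * θ h * (1 - X) ^ (2 * k)) = if i = k - 1 then 1 else 0 by
      rw [hs]; split_ifs <;> simp
    rcases lt_trichotomy (i + 1) k with hlt | heq | hgt
    · rw [if_neg (by omega)]
      obtain ⟨s, hs⟩ : ∃ s, k = i + 2 + s := ⟨k - (i + 2), by omega⟩
      have e1 : h ^ i * θ h * (1 - X) ^ (2 * k) = X ^ (i + 1) * ((1 + X) * (1 - X) ^ (2 * s + 1)) := by
        rw [← mul_assoc, ← h_pow_θ i, mul_assoc _ _ ((1 - X : ℤ⟦X⟧) ^ (2 * s + 1)), ← pow_add]
        congr 2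
        omega
      rw [e1, show k = (s + 1) + (i + 1) by omega, coeff_X_pow_mul, coeff_mid]
    · rw [if_pos (by omega)]
      have e1 : h ^ i * θ h * (1 - X) ^ (2 * k) = X ^ (i + 1) * ((1 + X) * geom 1) := by
        have h1 := h_pow_θ i
        calc h ^ i * θ h * (1 - X) ^ (2 * k) = h ^ i * θ h * (1 - X) ^ (2 * k) * ((1 - X) * geom 1) := by
              rw [geom_one_mul, mul_one]
          _ = h ^ i * θ h * (1 - X) ^ (2 * i + 3) * geom 1 := by
              rw [show 2 * i + 3 = 2 * k + 1 by omega]; ring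
          _ = X ^ (i + 1) * ((1 + X) * geom 1) := by rw [h1]; ring
      rw [e1, ← heq]
      have := PowerSeries.coeff_X_pow_mul ((1 + X) * geom 1) (i + 1) 0
      rw [zero_add] at this
      rw [this]
      simp [geom]
    · rw [if_neg (by omega)]
      have e1 : (X : ℤ⟦X⟧) ^ (i + 1) ∣ h ^ i * θ h * (1 - X) ^ (2 * k) := by
        apply Dvd.dvd.mul_right
        rw [pow_succ]
        apply mul_dvd_mul
        · exact pow_dvd_pow_of_dvd X_dvd_h i
        · rw [θ]; exact dvd_mul_right _ _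
      rw [PowerSeries.X_pow_dvd_iff] at e1
      exact e1 k hgt

/-- Lagrange type formula for the `h`-coefficients of `U(F(h))`. -/
theorem U_coeffs (q : ℕ) (F G : Polynomial ℤ) (N : ℕ)
    (hG : (X : ℤ⟦X⟧) ^ (N + 1) ∣ U (2 * q + 1) (ah F) - ah G) (j : ℕ) (hj : 1 ≤ j) (hjN : j ≤ N) :
    ((2 * q + 1 : ℕ) : ℤ) * (j * G.coeff j) =
      (Polynomial.derivative F * Pseq q ^ (2 * j)).coeff ((2 * q + 1) * j - 1) := by
  set p := 2 * q + 1 with hp
  have hp0 : p ≠ 0 := by omega
  have hpj : 1 ≤ p * j := Nat.mul_pos (by omega) (by omega)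
  -- left-hand side
  have h1 : coeff j (θ (U p (ah F)) * (1 - X) ^ (2 * j)) = j * G.coeff j := by
    have h2 : (X : ℤ⟦X⟧) ^ (N + 1) ∣ θ (U p (ah F)) - θ (ah G) := by
      rw [PowerSeries.X_pow_dvd_iff] at hG ⊢
      intro m hm
      have := hG m hm
      rw [map_sub] at this
      rw [map_sub, coeff_θ, coeff_θ, ← mul_sub, this, mul_zero]
    have h3 : (X : ℤ⟦X⟧) ^ (N + 1) ∣ θ (U p (ah F)) * (1 - X) ^ (2 * j) - θ (ah G) * (1 - X) ^ (2 * j) := by
      rw [← sub_mul]; exact Dvd.dvd.mul_right h2 _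
    rw [PowerSeries.X_pow_dvd_iff] at h3
    have h4 := h3 j (by omega)
    rw [map_sub, sub_eq_zero] at h4
    rw [h4, θ_ah, coeff_functional _ j hj, Polynomial.coeff_derivative, show j - 1 + 1 = j by omega]
    have : ((j - 1 : ℕ) : ℤ) + 1 = j := by
      rw [Nat.cast_sub hj]; simp
    rw [this]; ring
  have h5 : coeff (p * j) (θ (ah F) * expand p hp0 ((1 - X) ^ (2 * j))) =
      (p : ℤ) * coeff j (θ (U p (ah F)) * (1 - X) ^ (2 * j)) := by
    rw [← coeff_U, U_mul_expand, U_θ, mul_assoc, coeff_C_mul]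
  have h6 : θ (ah F) * expand p hp0 ((1 - X) ^ (2 * j)) =
      ah (Polynomial.derivative F * Pseq q ^ (2 * j)) * θ h * (1 - X) ^ (2 * (p * j)) := by
    rw [map_pow, map_sub, map_one, expand_X, ← Eser_mul, hp, Eser_eq, ← hp, θ_ah, map_mul, map_pow,
      mul_pow, ← pow_mul]
    rw [show p * (2 * j) = 2 * (p * j) by ring]
    ring
  rw [← h1, ← h5, h6, coeff_functional _ _ hpj]

/-- the case `F = P^m`. -/
theorem U_coeffs_pow (q m : ℕ) (G : Polynomial ℤ) (N : ℕ)
    (hG : (X : ℤ⟦X⟧) ^ (N + 1) ∣ U (2 * q + 1) (Eser (2 * q + 1) ^ m) - ah G) (j : ℕ)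
    (hj : 1 ≤ j) (hjN : j ≤ N) :
    ((m + 2 * j : ℕ) : ℤ) * G.coeff j =
      m * (Pseq q ^ (m + 2 * j)).coeff ((2 * q + 1) * j) := by
  rw [Eser_eq, ← map_pow] at hG
  have h1 := U_coeffs q _ G N hG j hj hjN
  rcases Nat.eq_zero_or_pos m with rfl | hm
  · simp only [pow_zero, Polynomial.derivative_one, zero_mul, Polynomial.coeff_zero] at h1
    have h2 : ((2 * q + 1 : ℕ) : ℤ) ≠ 0 := by positivity
    have h3 : (j : ℤ) ≠ 0 := by positivity
    have h4 : G.coeff j = 0 := by
      rcases mul_eq_zero.mp h1 with h | h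
      · exact absurd h h2
      · rcases mul_eq_zero.mp h with h | h
        · exact absurd h h3
        · exact h
    rw [h4]; simp
  set p := 2 * q + 1 with hp
  set M := m + 2 * j with hM
  have hpj : 1 ≤ p * j := Nat.mul_pos (by omega) (by omega)
  have h2 : (M : Polynomial ℤ) * (Polynomial.derivative (Pseq q ^ m) * Pseq q ^ (2 * j)) =
      (m : Polynomial ℤ) * Polynomial.derivative (Pseq q ^ M) := by
    rw [Polynomial.derivative_pow, Polynomial.derivative_pow]
    rw [show M - 1 = (m - 1) + 2 * j by omega, pow_add]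
    simp only [map_natCast]
    ring
  have h3 := congrArg (fun R => Polynomial.coeff R (p * j - 1)) h2
  beta_reduce at h3
  rw [← Polynomial.C_eq_natCast, ← Polynomial.C_eq_natCast, Polynomial.coeff_C_mul,
    Polynomial.coeff_C_mul, ← h1, Polynomial.coeff_derivative, Nat.sub_add_cancel hpj] at h3
  have h4 : ((p * j - 1 : ℕ) : ℤ) + 1 = p * j := by
    rw [Nat.cast_sub hpj]; push_cast; ring
  rw [h4] at h3
  have h5 : (p : ℤ) * j ≠ 0 := by positivity
  apply mul_left_cancel₀ h5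
  calc (p : ℤ) * j * ((M : ℤ) * G.coeff j) = (M : ℤ) * ((p : ℤ) * (j * G.coeff j)) := by ring
    _ = (m : ℤ) * ((Pseq q ^ M).coeff (p * j) * (p * j)) := h3
    _ = _ := by ring

/-- the case `F = X P^m`. -/
theorem U_coeffs_X_pow (q m : ℕ) (G : Polynomial ℤ) (N : ℕ)
    (hG : (X : ℤ⟦X⟧) ^ (N + 1) ∣ U (2 * q + 1) (Eser (2 * q + 1) ^ m * h) - ah G) (j : ℕ)
    (hj : 1 ≤ j) (hjN : j ≤ N) :
    ((m + 2 * j : ℕ) : ℤ) * (((2 * q + 1 : ℕ) : ℤ) * G.coeff j) =
      (2 + m * ((2 * q + 1 : ℕ) : ℤ)) * (Pseq q ^ (m + 2 * j)).coeff ((2 * q + 1) * j - 1) := by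
  rw [Eser_eq, ← map_pow, ← ah_X, ← map_mul] at hG
  have h1 := U_coeffs q _ G N hG j hj hjN
  set p := 2 * q + 1 with hp
  set M := m + 2 * j with hM
  have hpj : 1 ≤ p * j := Nat.mul_pos (by omega) (by omega)
  have h2 : (M : Polynomial ℤ) * (Polynomial.derivative (Pseq q ^ m * Polynomial.X) * Pseq q ^ (2 * j)) =
      (m : Polynomial ℤ) * (Polynomial.derivative (Pseq q ^ M) * Polynomial.X) +
      (M : Polynomial ℤ) * Pseq q ^ M := by
    rw [Polynomial.derivative_mul, Polynomial.derivative_pow, Polynomial.derivative_pow,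
      Polynomial.derivative_X]
    rcases Nat.eq_zero_or_pos m with rfl | hm
    · simp [hM]
    rw [show M - 1 = (m - 1) + 2 * j by omega, pow_add _ (m - 1)]
    have : Pseq q ^ M = Pseq q ^ m * Pseq q ^ (2 * j) := by rw [hM, pow_add]
    rw [this]
    simp only [map_natCast]
    ring
  have h3 := congrArg (fun R => Polynomial.coeff R (p * j - 1)) h2
  beta_reduce at h3
  have h6 : (Polynomial.derivative (Pseq q ^ M) * Polynomial.X).coeff (p * j - 1) =
      ((p * j - 1 : ℕ) : ℤ) * (Pseq q ^ M).coeff (p * j - 1) := by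
    rcases Nat.eq_zero_or_pos (p * j - 1) with h0 | h0
    · rw [h0]; simp
    · obtain ⟨k, hk⟩ : ∃ k, p * j - 1 = k + 1 := ⟨p * j - 1 - 1, by omega⟩
      rw [hk, Polynomial.coeff_mul_X, Polynomial.coeff_derivative]
      push_cast; ring
  rw [Polynomial.coeff_add, ← Polynomial.C_eq_natCast, ← Polynomial.C_eq_natCast,
    Polynomial.coeff_C_mul,
    Polynomial.coeff_C_mul, Polynomial.coeff_C_mul, ← h1, h6] at h3
  have h4 : ((p * j - 1 : ℕ) : ℤ) = p * j - 1 := by
    rw [Nat.cast_sub hpj]; push_cast; ring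
  rw [h4] at h3
  have h5 : (j : ℤ) ≠ 0 := by positivity
  apply mul_left_cancel₀ h5
  have hMz : (M : ℤ) = m + 2 * j := by rw [hM]; push_cast; ring
  calc (j : ℤ) * ((M : ℤ) * ((p : ℤ) * G.coeff j)) = (M : ℤ) * ((p : ℤ) * (j * G.coeff j)) := by ring
    _ = (m : ℤ) * (((p : ℤ) * j - 1) * (Pseq q ^ M).coeff (p * j - 1)) + M * (Pseq q ^ M).coeff (p * j - 1) := h3
    _ = _ := by rw [hMz]; ring

end Pool.Agent.Lib.MP_26251e_nt
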