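import Mathlib
import Pool.Agent.Lib.MP_26251e_nt.A4

namespace Pool.Agent.Lib.MP_26251e_nt

open PowerSeries Finset

theorem C_dvd_Eser_sub_one {p : ℕ} (hp : p.Prime) (hodd : Odd p) :
    ∃ R : ℤ⟦X⟧, Eser p - 1 = C (p : ℤ) * R := by
  obtain ⟨r, hr⟩ := exists_add_pow_prime_eq hp (1 : ℤ⟦X⟧) (-X)
  have h1 : (1 - X : ℤ⟦X⟧) ^ p = 1 - X ^ p - C (p : ℤ) * (X * r) := by
    rw [sub_eq_add_neg, hr, hodd.neg_pow]
    have : ((p : ℕ) : ℤ⟦X⟧) = C (p : ℤ) := by simp
    rw [this]; ring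
  have h2 := Eser_mul p
  have h3 : geom 1 ^ p * (1 - X) ^ p = 1 := by
    rw [← mul_pow, mul_comm, geom_one_mul, one_pow]
  refine ⟨X * r * geom 1 ^ p, ?_⟩
  have h4 : (Eser p - 1) * (1 - X) ^ p = C (p : ℤ) * (X * r) := by
    rw [sub_mul, h2, one_mul, h1]; ring
  calc Eser p - 1 = (Eser p - 1) * (geom 1 ^ p * (1 - X) ^ p) := by rw [h3, mul_one]
    _ = ((Eser p - 1) * (1 - X) ^ p) * geom 1 ^ p := by ring
    _ = _ := by rw [h4]; ring

theorem coeff_functional' (F : Polynomial ℤ) (j : ℕ) (hj : 1 ≤ j) :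
    coeff j (θ (ah F) * (1 - X) ^ (2 * j)) = j * F.coeff j := by
  rw [θ_ah, coeff_functional _ j hj, Polynomial.coeff_derivative, show j - 1 + 1 = j by omega]
  have : ((j - 1 : ℕ) : ℤ) + 1 = j := by
    rw [Nat.cast_sub hj]; simp
  rw [this]; ring

theorem θ_C_mul (c : ℤ) (A : ℤ⟦X⟧) : θ (C c * A) = C c * θ A := by
  ext n
  rw [coeff_θ, coeff_C_mul, coeff_C_mul, coeff_θ]; ring

theorem θ_sub (A B : ℤ⟦X⟧) : θ (A - B) = θ A - θ B := by
  ext n
  rw [coeff_θ, map_sub, map_sub, coeff_θ, coeff_θ]; ring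

theorem coeff_unique (F G : Polynomial ℤ) (N : ℕ) (hd : (X : ℤ⟦X⟧) ^ (N + 1) ∣ ah F - ah G)
    (j : ℕ) (hj : 1 ≤ j) (hjN : j ≤ N) : F.coeff j = G.coeff j := by
  have h2 : (X : ℤ⟦X⟧) ^ (N + 1) ∣ θ (ah F) - θ (ah G) := by
    rw [PowerSeries.X_pow_dvd_iff] at hd ⊢
    intro m hm
    have := hd m hm
    rw [map_sub] at this
    rw [map_sub, coeff_θ, coeff_θ, ← mul_sub, this, mul_zero]
  have h3 : (X : ℤ⟦X⟧) ^ (N + 1) ∣ θ (ah F) * (1 - X) ^ (2 * j) - θ (ah G) * (1 - X) ^ (2 * j) := by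
    rw [← sub_mul]; exact Dvd.dvd.mul_right h2 _
  rw [PowerSeries.X_pow_dvd_iff] at h3
  have h4 := h3 j (by omega)
  rw [map_sub, sub_eq_zero, coeff_functional' F j hj, coeff_functional' G j hj] at h4
  exact mul_left_cancel₀ (by positivity : (j : ℤ) ≠ 0) h4

/-- `P = 1 + p Q`. -/
theorem exists_Q (q : ℕ) (hq : 1 ≤ q) (hp : (2 * q + 1).Prime) :
    ∃ Q : Polynomial ℤ, Pseq q = 1 + Polynomial.C ((2 * q + 1 : ℕ) : ℤ) * Q ∧
      Q.natDegree ≤ q ∧ Q.coeff 0 = 0 ∧ Q.coeff q = 1 := by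
  set p := 2 * q + 1 with hpq
  obtain ⟨R, hR⟩ := C_dvd_Eser_sub_one hp ⟨q, hpq⟩
  have hpz : (p : ℤ) ≠ 0 := by positivity
  have hdvd : Polynomial.C (p : ℤ) ∣ Pseq q - 1 := by
    rw [Polynomial.C_dvd_iff_dvd_coeff]
    intro j
    rcases Nat.eq_zero_or_pos j with rfl | hj
    · rw [Polynomial.coeff_sub, Pseq_coeff_zero]; simp
    rcases Nat.lt_or_ge q j with hlt | hle
    · rw [Polynomial.coeff_sub, Polynomial.coeff_eq_zero_of_natDegree_lt
        (lt_of_le_of_lt (Pseq_natDegree q) hlt), Polynomial.coeff_one, if_neg (by omega)]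
      simp
    · rw [Polynomial.coeff_sub, Polynomial.coeff_one, if_neg (by omega), sub_zero]
      have h1 := coeff_functional' (Pseq q) j hj
      have h2 : θ (ah (Pseq q)) = C (p : ℤ) * θ R := by
        rw [← Eser_eq, ← hpq, ← θ_C_mul, ← hR, θ_sub]
        have : θ (1 : ℤ⟦X⟧) = 0 := by
          rw [θ]; rw [derivative_one, mul_zero]
        rw [this, sub_zero]
      rw [h2, mul_assoc, coeff_C_mul] at h1
      have h3 : (p : ℤ) ∣ j * (Pseq q).coeff j := ⟨_, h1.symm⟩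
      rcases Int.Prime.dvd_mul' hp h3 with h4 | h4
      · exfalso
        have := Int.natCast_dvd_natCast.mp h4
        have := Nat.le_of_dvd hj this
        omega
      · exact h4
  obtain ⟨Q, hQ⟩ := hdvd
  have hc : ∀ j, (Pseq q - 1).coeff j = p * Q.coeff j := by
    intro j; rw [hQ, Polynomial.coeff_C_mul]
  refine ⟨Q, by rw [← hQ]; ring, ?_, ?_, ?_⟩
  · rw [Polynomial.natDegree_le_iff_coeff_eq_zero]
    intro j hj
    have := hc j
    rw [Polynomial.coeff_sub, Polynomial.coeff_eq_zero_of_natDegree_lt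
        (lt_of_le_of_lt (Pseq_natDegree q) hj), Polynomial.coeff_one, if_neg (by omega)] at this
    simp only [sub_self] at this
    rcases mul_eq_zero.mp this.symm with h | h
    · exact absurd h hpz
    · exact h
  · have := hc 0
    rw [Polynomial.coeff_sub, Pseq_coeff_zero] at this
    simp only [Polynomial.coeff_one_zero, sub_self] at this
    rcases mul_eq_zero.mp this.symm with h | h
    · exact absurd h hpz
    · exact h
  · have := hc q
    rw [Polynomial.coeff_sub, Pseq_coeff_top, Polynomial.coeff_one, if_neg (by omega), sub_zero] at this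
    apply mul_left_cancel₀ hpz
    rw [← this, hpq]; push_cast; ring

theorem Lip_ah {p : ℕ} (hp : p.Prime) (c : ℕ) (F : Polynomial ℤ) (hF0 : F.coeff 0 = 0)
    (hyp : ∀ j, 1 ≤ j → ∃ e, 2 * j - 1 < p ^ (e + 1) ∧ (p : ℤ) ^ (c + e) ∣ F.coeff j) :
    Lip p c (ah F) := by
  apply Lip_of_coeffs hp
  · rw [coeff_ah_trunc F F.natDegree 0 le_rfl]
    apply Finset.sum_eq_zero
    intro j _
    rw [coeff_C_mul]
    rcases Nat.eq_zero_or_pos j with rfl | hj
    · rw [hF0, zero_mul]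
    · rw [coeff_h_pow _ _ hj, Nat.choose_eq_zero_of_lt (by omega)]; simp
  · intro N G hG j hj hjN
    have := coeff_unique F G N hG j hj hjN
    rw [← this]
    exact hyp j hj

theorem Lip_E {q : ℕ} (hq : 1 ≤ q) (hp : (2 * q + 1).Prime) :
    Lip (2 * q + 1) 1 (Eser (2 * q + 1) - 1) := by
  obtain ⟨Q, hQ, hdeg, h0, -⟩ := exists_Q q hq hp
  rw [Eser_eq, hQ, ← map_one ah, ← map_sub, add_sub_cancel_left]
  apply Lip_ah hp
  · rw [Polynomial.coeff_C_mul, h0, mul_zero]
  · intro j hj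
    rcases Nat.lt_or_ge q j with hlt | hle
    · refine ⟨j, ?_, ?_⟩
      · have h1 : j + 1 < (2 * q + 1) ^ (j + 1) := Nat.lt_pow_self (by omega)
        have h2 : 2 * j - 1 < 2 ^ (j + 1) := by
          have : j < 2 ^ j := Nat.lt_pow_self (by omega)
          rw [pow_succ]; omega
        have h3 : 2 ^ (j + 1) ≤ (2 * q + 1) ^ (j + 1) := Nat.pow_le_pow_left (by omega) _
        omega
      · rw [Polynomial.coeff_C_mul, Polynomial.coeff_eq_zero_of_natDegree_lt (by omega)]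
        simp
    · refine ⟨0, by rw [zero_add, pow_one]; omega, ?_⟩
      rw [Polynomial.coeff_C_mul]
      simp

/-- expansion of the coefficients of `P^M`. -/
theorem coeff_P_pow (q M k : ℕ) (Q : Polynomial ℤ)
    (hQ : Pseq q = 1 + Polynomial.C ((2 * q + 1 : ℕ) : ℤ) * Q) :
    (Pseq q ^ M).coeff k = ∑ i ∈ range (M + 1),
      (M.choose i : ℤ) * ((2 * q + 1 : ℕ) : ℤ) ^ i * (Q ^ i).coeff k := by
  rw [hQ, add_comm, add_pow, Polynomial.finsetSum_coeff]
  apply Finset.sum_congr rfl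
  intro i _
  rw [one_pow, mul_one, mul_pow, ← Polynomial.C_pow, ← Polynomial.C_eq_natCast,
    Polynomial.coeff_mul_C, Polynomial.coeff_C_mul]
  ring

theorem coeff_Q_pow_eq_zero (q : ℕ) (Q : Polynomial ℤ) (hdeg : Q.natDegree ≤ q) (i k : ℕ)
    (hik : i * q < k) : (Q ^ i).coeff k = 0 := by
  apply Polynomial.coeff_eq_zero_of_natDegree_lt
  exact lt_of_le_of_lt (Polynomial.natDegree_pow_le_of_le i hdeg) hik

theorem coeff_Q_pow_eq_zero' (Q : Polynomial ℤ) (h0 : Q.coeff 0 = 0) (i k : ℕ)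
    (hik : k < i) : (Q ^ i).coeff k = 0 := by
  obtain ⟨R, hR⟩ := Polynomial.X_dvd_iff.mpr h0
  rw [hR, mul_pow, Polynomial.coeff_X_pow_mul', if_neg (by omega)]

/-- the basic binomial identity. -/
theorem choose_identity (J a b : ℕ) :
    (a + b + 1) * (a + b + 2 * J + 3).choose (a + 2 * J + 3) *
      (6 * (a + 2 * J + 3).choose (2 * J) * (a + 3).choose 3) =
    (a + b + 2 * J + 3) * ((a + b + 1) ^ 2 * (a + b + 2)) *
      ((a + b + 2 * J + 2).choose (2 * J) * (a + b).choose a) := by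
  have e1 : (((a + b + 2 * J + 3).choose (a + 2 * J + 3) : ℕ) : ℚ) =
      (a + b + 2 * J + 3).factorial / ((a + 2 * J + 3).factorial * b.factorial) := by
    rw [Nat.cast_choose ℚ (by omega)]
    rw [show a + b + 2 * J + 3 - (a + 2 * J + 3) = b by omega]
  have e2 : (((a + 2 * J + 3).choose (2 * J) : ℕ) : ℚ) =
      (a + 2 * J + 3).factorial / ((2 * J).factorial * (a + 3).factorial) := by
    rw [Nat.cast_choose ℚ (by omega)]
    rw [show a + 2 * J + 3 - 2 * J = a + 3 by omega]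
  have e3 : (((a + 3).choose 3 : ℕ) : ℚ) = (a + 3).factorial / (6 * a.factorial) := by
    rw [Nat.cast_choose ℚ (by omega)]
    rw [show a + 3 - 3 = a by omega]
    norm_num [Nat.factorial]
  have e4 : (((a + b + 2 * J + 2).choose (2 * J) : ℕ) : ℚ) =
      (a + b + 2 * J + 2).factorial / ((2 * J).factorial * (a + b + 2).factorial) := by
    rw [Nat.cast_choose ℚ (by omega)]
    rw [show a + b + 2 * J + 2 - 2 * J = a + b + 2 by omega]
  have e5 : (((a + b).choose a : ℕ) : ℚ) = (a + b).factorial / (a.factorial * b.factorial) := by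
    rw [Nat.cast_choose ℚ (by omega)]
    rw [show a + b - a = b by omega]
  have f1 : ((a + b + 2 * J + 3).factorial : ℚ) = (a + b + 2 * J + 3) * (a + b + 2 * J + 2).factorial := by
    rw [Nat.factorial_succ]; push_cast; ring
  have f2 : ((a + b + 2).factorial : ℚ) = (a + b + 2) * ((a + b + 1) * (a + b).factorial) := by
    rw [Nat.factorial_succ, Nat.factorial_succ]; push_cast; ring
  have g1 : ((a + 2 * J + 3).factorial : ℚ) ≠ 0 := by positivity
  have g2 : (b.factorial : ℚ) ≠ 0 := by positivity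
  have g3 : ((2 * J).factorial : ℚ) ≠ 0 := by positivity
  have g4 : ((a + 3).factorial : ℚ) ≠ 0 := by positivity
  have g5 : (a.factorial : ℚ) ≠ 0 := by positivity
  have g6 : ((a + b).factorial : ℚ) ≠ 0 := by positivity
  have g7 : ((a : ℚ) + b + 1) ≠ 0 := by positivity
  have g8 : ((a : ℚ) + b + 2) ≠ 0 := by positivity
  have : (((a + b + 1) * (a + b + 2 * J + 3).choose (a + 2 * J + 3) *
      (6 * (a + 2 * J + 3).choose (2 * J) * (a + 3).choose 3) : ℕ) : ℚ) =
    (((a + b + 2 * J + 3) * ((a + b + 1) ^ 2 * (a + b + 2)) *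
      ((a + b + 2 * J + 2).choose (2 * J) * (a + b).choose a) : ℕ) : ℚ) := by
    push_cast
    rw [e1, e2, e3, e4, e5, f1, f2]
    field_simp
  exact_mod_cast this

end Pool.Agent.Lib.MP_26251e_nt
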