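import Mathlib
import Pool.Agent.Lib.MP_26251e_nt.A5

namespace Pool.Agent.Lib.MP_26251e_nt

open PowerSeries Finset

theorem term_dvd {p : ℕ} (hp : p.Prime) (m j i : ℕ) (hm : 1 ≤ m) (hj : 1 ≤ j) (hi : 2 * j + 1 ≤ i)
    (w μ M' v t' s : ℕ) (hw : p ^ w ∣ m ^ 2 * (m + 1)) (hM : m + 2 * j = p ^ μ * M')
    (hv : 6 * i.choose (2 * j - 2) * (i - 2 * j + 2).choose 3 = p ^ v * t') (ht' : ¬ p ∣ t')
    (hs : v + s ≤ i) : p ^ (μ + w + s) ∣ m * (m + 2 * j).choose i * p ^ i := by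
  obtain ⟨a, ha⟩ : ∃ a, i = a + 2 * j + 1 := ⟨i - 2 * j - 1, by omega⟩
  rcases Nat.lt_or_ge (m - 1) a with hlt | hge
  · rw [Nat.choose_eq_zero_of_lt (by omega)]; simp
  obtain ⟨b, hb⟩ : ∃ b, m = a + b + 1 := ⟨m - 1 - a, by omega⟩
  obtain ⟨J, hJ⟩ : ∃ J, j = J + 1 := ⟨j - 1, by omega⟩
  have h1 := choose_identity J a b
  rw [show 2 * j - 2 = 2 * J by omega, show i - 2 * j + 2 = a + 3 by omega,
    show i = a + 2 * J + 3 by omega] at hv
  rw [hv] at h1
  rw [show m + 2 * j = a + b + 2 * J + 3 by omega] at hM ⊢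
  rw [show i = a + 2 * J + 3 by omega] at hs ⊢
  set i' := a + 2 * J + 3 with hi'
  have h2 : t' * (m * (a + b + 2 * J + 3).choose i' * p ^ i') =
      (p ^ μ * M') * (m ^ 2 * (m + 1)) *
      ((a + b + 2 * J + 2).choose (2 * J) * (a + b).choose a) * p ^ (i' - v) := by
    have h3 : p ^ i' = p ^ v * p ^ (i' - v) := by rw [← pow_add]; congr 1; omega
    rw [h3, ← hM, hb]
    calc t' * ((a + b + 1) * (a + b + 2 * J + 3).choose i' * (p ^ v * p ^ (i' - v)))
        = ((a + b + 1) * (a + b + 2 * J + 3).choose i' * (p ^ v * t')) * p ^ (i' - v) := by ring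
      _ = _ := by rw [h1]
  have h4 : p ^ (μ + w + s) ∣ t' * (m * (a + b + 2 * J + 3).choose i' * p ^ i') := by
    rw [h2]
    obtain ⟨c, hc⟩ := hw
    rw [hc]
    have h5 : p ^ s ∣ p ^ (i' - v) := pow_dvd_pow p (by omega)
    obtain ⟨f, hf⟩ := h5
    rw [hf]
    refine ⟨M' * c * ((a + b + 2 * J + 2).choose (2 * J) * (a + b).choose a) * f, ?_⟩
    rw [pow_add, pow_add]; ring
  exact (Nat.Coprime.pow_left _ ((Nat.Prime.coprime_iff_not_dvd hp).mpr ht')).dvd_of_dvd_mul_left h4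

theorem log_le_div5 (p x : ℕ) (hp : 5 ≤ p) : Nat.log p x ≤ x / 5 := by
  rcases Nat.eq_zero_or_pos (Nat.log p x) with h0 | h0
  · omega
  have hx : x ≠ 0 := by rintro rfl; simp at h0
  have h1 : p ^ Nat.log p x ≤ x := Nat.pow_log_le_self p hx
  have h2 : 5 ^ Nat.log p x ≤ p ^ Nat.log p x := Nat.pow_le_pow_left hp _
  have h3 : 5 * Nat.log p x ≤ 5 ^ Nat.log p x := by
    generalize Nat.log p x = k at h0
    induction k with
    | zero => omega
    | succ k ih =>
      rcases Nat.eq_zero_or_pos k with rfl | hk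
      · norm_num
      · have := ih hk
        rw [pow_succ]; omega
  omega

theorem log_le_div3 (x : ℕ) : Nat.log 3 x ≤ x / 3 := by
  rcases Nat.eq_zero_or_pos (Nat.log 3 x) with h0 | h0
  · omega
  have hx : x ≠ 0 := by rintro rfl; simp at h0
  have h1 : 3 ^ Nat.log 3 x ≤ x := Nat.pow_log_le_self 3 hx
  have h3 : 3 * Nat.log 3 x ≤ 3 ^ Nat.log 3 x := by
    generalize Nat.log 3 x = k at h0
    induction k with
    | zero => omega
    | succ k ih =>
      rcases Nat.eq_zero_or_pos k with rfl | hk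
      · norm_num
      · have := ih hk
        rw [pow_succ]; omega
  omega

theorem cancel_dvd {p : ℕ} (hp : p.Prime) (μ t M' : ℕ) (g : ℤ) (hM' : ¬ p ∣ M')
    (h : (p : ℤ) ^ (μ + t) ∣ ((p ^ μ * M' : ℕ) : ℤ) * g) : (p : ℤ) ^ t ∣ g := by
  have h1 : (p : ℤ) ^ μ * (p : ℤ) ^ t ∣ (p : ℤ) ^ μ * ((M' : ℤ) * g) := by
    rw [← pow_add]
    exact dvdr h (by push_cast; ring)
  have h2 : (p : ℤ) ^ t ∣ (M' : ℤ) * g :=
    (mul_dvd_mul_iff_left (pow_ne_zero _ (by exact_mod_cast hp.ne_zero))).mp h1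
  have h3 : IsCoprime ((p : ℤ) ^ t) (M' : ℤ) := by
    apply IsCoprime.pow_left
    rw [Nat.isCoprime_iff_coprime]
    exact (Nat.Prime.coprime_iff_not_dvd hp).mpr hM'
  exact h3.dvd_of_dvd_mul_left h2

theorem six_choose_ne_zero (i j : ℕ) (hi : 2 * j + 1 ≤ i) (hj : 1 ≤ j) :
    6 * i.choose (2 * j - 2) * (i - 2 * j + 2).choose 3 ≠ 0 := by
  have h1 : 0 < i.choose (2 * j - 2) := Nat.choose_pos (by omega)
  have h2 : 0 < (i - 2 * j + 2).choose 3 := Nat.choose_pos (by omega)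
  positivity

/-- valuation of the denominators, `p ≥ 5`. -/
theorem T_factorization {p : ℕ} (hp : p.Prime) (hp5 : 5 ≤ p) (i j : ℕ) (hi : 2 * j + 1 ≤ i)
    (hj : 1 ≤ j) :
    (6 * i.choose (2 * j - 2) * (i - 2 * j + 2).choose 3).factorization p ≤
      (i.choose (2 * j - 2)).factorization p + Nat.log p (i - 2 * j + 2) := by
  have h1 : i.choose (2 * j - 2) ≠ 0 := (Nat.choose_pos (by omega)).ne'
  have h2 : (i - 2 * j + 2).choose 3 ≠ 0 := (Nat.choose_pos (by omega)).ne'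
  rw [Nat.factorization_mul (by positivity) h2, Nat.factorization_mul (by norm_num) h1]
  simp only [Finsupp.coe_add, Pi.add_apply]
  have h3 : (6 : ℕ).factorization p = 0 := by
    apply Nat.factorization_eq_zero_of_not_dvd
    intro h
    have := (Nat.Prime.dvd_mul hp).mp (show p ∣ 2 * 3 from h)
    rcases this with h | h
    · have := Nat.le_of_dvd (by norm_num) h; omega
    · have := Nat.le_of_dvd (by norm_num) h; omega
  have h4 : ((i - 2 * j + 2).choose 3).factorization p ≤ Nat.log p (i - 2 * j + 2) :=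
    Nat.factorization_choose_le_log
  omega

theorem T_bound5 {p : ℕ} (hp : p.Prime) (hp5 : 5 ≤ p) (i j : ℕ) (hi : 2 * j + 1 ≤ i)
    (hj : 2 ≤ j) :
    (6 * i.choose (2 * j - 2) * (i - 2 * j + 2).choose 3).factorization p +
      (4 + Nat.log p (2 * j - 1)) ≤ i := by
  have h1 := T_factorization hp hp5 i j hi (by omega)
  have h2 : (i.choose (2 * j - 2)).factorization p ≤ Nat.log p i := Nat.factorization_choose_le_log
  have h3 := log_le_div5 p i hp5
  have h4 := log_le_div5 p (i - 2 * j + 2) hp5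
  have h5 := log_le_div5 p (2 * j - 1) hp5
  rcases Nat.lt_or_ge i 6 with hlt | hge
  · have hi5 : i = 5 := by omega
    have hj2 : j = 2 := by omega
    subst hi5; subst hj2
    omega
  · omega

theorem T_bound5_one {p : ℕ} (hp : p.Prime) (hp5 : 5 ≤ p) (i : ℕ) (hi : 4 ≤ i) :
    (6 * i.choose (2 * 1 - 2) * (i - 2 * 1 + 2).choose 3).factorization p + 4 ≤ i := by
  have h1 := T_factorization hp hp5 i 1 (by omega) (by omega)
  have h2 : (i.choose (2 * 1 - 2)).factorization p = 0 := by simp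
  have h4 := log_le_div5 p (i - 2 * 1 + 2) hp5
  omega

theorem T_bound3 (j : ℕ) (hj : 2 ≤ j) :
    (6 * (3 * j).choose (2 * j - 2) * (3 * j - 2 * j + 2).choose 3).factorization 3 +
      (3 + Nat.log 3 (2 * j - 1)) ≤ 3 * j := by
  have h1 : (3 * j).choose (2 * j - 2) ≠ 0 := (Nat.choose_pos (by omega)).ne'
  have h2 : (3 * j - 2 * j + 2).choose 3 ≠ 0 := (Nat.choose_pos (by omega)).ne'
  have h6 : (6 : ℕ).factorization 3 = 1 := by
    rw [show (6 : ℕ) = 2 * 3 by norm_num, Nat.factorization_mul (by norm_num) (by norm_num),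
      Nat.Prime.factorization Nat.prime_two, Nat.Prime.factorization Nat.prime_three]
    simp
  rcases Nat.lt_or_ge j 4 with hlt | hge
  · interval_cases j
    · -- j = 2
      have e1 : 6 * (3 * 2).choose (2 * 2 - 2) * (3 * 2 - 2 * 2 + 2).choose 3 = 3 ^ 2 * 40 := by
        decide
      have e2 : Nat.log 3 (2 * 2 - 1) = 1 := by decide
      rw [e1, e2, Nat.factorization_mul (by norm_num) (by norm_num), Nat.factorization_pow]
      simp only [Finsupp.coe_add, Pi.add_apply, Finsupp.coe_smul, Pi.smul_apply, smul_eq_mul]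
      rw [Nat.Prime.factorization Nat.prime_three,
        Nat.factorization_eq_zero_of_not_dvd (by norm_num : ¬ 3 ∣ 40)]
      simp
    · have e1 : 6 * (3 * 3).choose (2 * 3 - 2) * (3 * 3 - 2 * 3 + 2).choose 3 = 3 ^ 3 * 280 := by
        decide
      have e2 : Nat.log 3 (2 * 3 - 1) = 1 := by decide
      rw [e1, e2, Nat.factorization_mul (by norm_num) (by norm_num), Nat.factorization_pow]
      simp only [Finsupp.coe_add, Pi.add_apply, Finsupp.coe_smul, Pi.smul_apply, smul_eq_mul]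
      rw [Nat.Prime.factorization Nat.prime_three,
        Nat.factorization_eq_zero_of_not_dvd (by norm_num : ¬ 3 ∣ 280)]
      simp
  · rw [Nat.factorization_mul (by positivity) h2, Nat.factorization_mul (by norm_num) h1]
    simp only [Finsupp.coe_add, Pi.add_apply]
    have h3 : ((3 * j).choose (2 * j - 2)).factorization 3 ≤ Nat.log 3 (3 * j) :=
      Nat.factorization_choose_le_log
    have h4 : ((3 * j - 2 * j + 2).choose 3).factorization 3 ≤ Nat.log 3 (3 * j - 2 * j + 2) :=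
      Nat.factorization_choose_le_log
    have h5 := log_le_div3 (3 * j)
    have h7 := log_le_div3 (3 * j - 2 * j + 2)
    have h8 := log_le_div3 (2 * j - 1)
    omega

/-- the term bound packaged with the factorization. -/
theorem term_dvd' {p : ℕ} (hp : p.Prime) (m j i : ℕ) (hm : 1 ≤ m) (hj : 1 ≤ j)
    (hi : 2 * j + 1 ≤ i) (w μ M' s : ℕ) (hw : p ^ w ∣ m ^ 2 * (m + 1))
    (hM : m + 2 * j = p ^ μ * M')
    (hs : (6 * i.choose (2 * j - 2) * (i - 2 * j + 2).choose 3).factorization p + s ≤ i) :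
    (p : ℤ) ^ (μ + w + s) ∣ (m : ℤ) * ((m + 2 * j).choose i : ℤ) * (p : ℤ) ^ i := by
  have h0 := six_choose_ne_zero i j hi hj
  have := term_dvd hp m j i hm hj hi w μ M' _ _ s hw hM
    (Nat.ordProj_mul_ordCompl_eq_self _ p).symm (Nat.not_dvd_ordCompl hp h0) hs
  exact_mod_cast this

theorem Q_eq_X (Q : Polynomial ℤ) (hdeg : Q.natDegree ≤ 1) (h0 : Q.coeff 0 = 0)
    (h1 : Q.coeff 1 = 1) : Q = Polynomial.X := by
  ext n
  match n with
  | 0 => simp [h0]
  | 1 => simp [h1]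
  | (n + 2) =>
    rw [Polynomial.coeff_eq_zero_of_natDegree_lt (by omega), Polynomial.coeff_X, if_neg (by omega)]

/-- `κ = 3` for `p ≥ 5`, `κ = 2` for `p = 3`. -/
def kap (p : ℕ) : ℕ := if p = 3 then 2 else 3

theorem prime_five_le {q : ℕ} (hq : 1 ≤ q) (h3 : 2 * q + 1 ≠ 3) :
    5 ≤ 2 * q + 1 := by omega

/-- high coefficients of `Y`. -/
theorem Y_high {q : ℕ} (hq : 1 ≤ q) (hp : (2 * q + 1).Prime) (m w : ℕ) (hm : 1 ≤ m)
    (hw : (2 * q + 1) ^ w ∣ m ^ 2 * (m + 1)) (G : Polynomial ℤ) (N : ℕ)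
    (hG : (X : ℤ⟦X⟧) ^ (N + 1) ∣ U (2 * q + 1) (Eser (2 * q + 1) ^ m) - ah G) (j : ℕ)
    (hj : 2 ≤ j) (hjN : j ≤ N) :
    ((2 * q + 1 : ℕ) : ℤ) ^ (kap (2 * q + 1) + 1 + w + Nat.log (2 * q + 1) (2 * j - 1)) ∣ G.coeff j := by
  obtain ⟨Q, hQ, hdeg, h0, h1⟩ := exists_Q q hq hp
  have h2 := U_coeffs_pow q m G N hG j (by omega) hjN
  rw [coeff_P_pow q _ _ Q hQ] at h2
  set p := 2 * q + 1 with hpq
  obtain ⟨μ, M', hM', hM⟩ := Nat.exists_eq_pow_mul_and_not_dvd (n := m + 2 * j) (by omega) p hp.ne_one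
  apply cancel_dvd hp μ _ M' _ hM'
  rw [← hM, h2, Finset.mul_sum]
  apply Finset.dvd_sum
  intro i _
  -- only `i ≥ 2j+1` matter
  rcases Nat.lt_or_ge (i * q) (p * j) with hlt | hge
  · rw [coeff_Q_pow_eq_zero q Q hdeg i _ hlt]; simp
  have hi : 2 * j + 1 ≤ i := by
    by_contra hcon
    push Not at hcon
    have : i * q ≤ 2 * j * q := Nat.mul_le_mul_right q (by omega)
    have h5 : p * j = 2 * j * q + j := by rw [hpq]; ring
    omega
  by_cases h3 : p = 3
  · -- p = 3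
    have hq1 : q = 1 := by omega
    have hQX := Q_eq_X Q (by omega) h0 (by rw [← hq1]; exact h1)
    by_cases hij : i = 3 * j
    · have h6 := T_bound3 j hj
      have h7 := term_dvd' hp m j i hm (by omega) hi w μ M' (3 + Nat.log p (2 * j - 1)) hw hM
        (by rw [hij, h3]; exact h6)
      rw [kap, if_pos h3]
      refine dvdr (Dvd.dvd.mul_right ?_ ((Q ^ i).coeff (p * j)))
        (show (m : ℤ) * ((m + 2 * j).choose i : ℤ) * (p : ℤ) ^ i * ((Q ^ i).coeff (p * j)) = _ by ring)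
      exact (pow_dvd_pow _ (by omega)).trans h7
    · rw [hQX, Polynomial.coeff_X_pow, if_neg (by rw [h3]; omega)]; simp
  · have h5 : 5 ≤ p := prime_five_le hq h3
    have h6 := T_bound5 hp h5 i j hi hj
    have h7 := term_dvd' hp m j i hm (by omega) hi w μ M' (4 + Nat.log p (2 * j - 1)) hw hM h6
    rw [kap, if_neg h3]
    refine dvdr (Dvd.dvd.mul_right ?_ ((Q ^ i).coeff (p * j)))
        (show (m : ℤ) * ((m + 2 * j).choose i : ℤ) * (p : ℤ) ^ i * ((Q ^ i).coeff (p * j)) = _ by ring)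
    exact (pow_dvd_pow _ (by omega)).trans h7

end Pool.Agent.Lib.MP_26251e_nt
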