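import Mathlib
import Pool.Agent.Lib.MP_26251e_nt.A6

namespace Pool.Agent.Lib.MP_26251e_nt

open PowerSeries Finset

/-- `β_p = C(2p-1, p-1) - 1`. -/
def beta (p : ℕ) : ℤ := ((2 * p - 1).choose (p - 1) : ℤ) - 1

theorem coeff_p_Eser (p : ℕ) (hp : 1 ≤ p) : coeff p (Eser p) = beta p := by
  rw [Eser, sub_mul, one_mul, map_sub, geom_one_eq]
  obtain ⟨q, rfl⟩ : ∃ q, p = q + 1 := ⟨p - 1, by omega⟩
  rw [PowerSeries.mk_one_pow_eq_mk_choose_add]
  have h1 := PowerSeries.coeff_X_pow_mul (R := ℤ) (mk fun n => ((q + n).choose q : ℤ)) (q + 1) 0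
  rw [zero_add] at h1
  rw [h1, coeff_mk, coeff_mk, beta, show q + (q + 1) = 2 * (q + 1) - 1 by omega,
    show q + 1 - 1 = q by omega]
  simp

theorem coeff_one_ah (F : Polynomial ℤ) : coeff 1 (ah F) = F.coeff 1 := by
  have h1 := coeff_functional' F 1 le_rfl
  have h2 : coeff 1 (θ (ah F) * (1 - X) ^ (2 * 1)) = coeff 1 (ah F) := by
    rw [coeff_mul, Finset.Nat.sum_antidiagonal_eq_sum_range_succ
      (fun i j => coeff i (θ (ah F)) * coeff j ((1 - X : ℤ⟦X⟧) ^ (2 * 1)))]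
    rw [Finset.sum_range_succ, Finset.sum_range_one, coeff_θ, coeff_θ]
    simp
  rw [← h2, h1]; simp

theorem coeff_one_of_dvd {A : ℤ⟦X⟧} {G : Polynomial ℤ} {N : ℕ} (hN : 1 ≤ N)
    (hG : (X : ℤ⟦X⟧) ^ (N + 1) ∣ A - ah G) : coeff 1 A = G.coeff 1 := by
  rw [PowerSeries.X_pow_dvd_iff] at hG
  have := hG 1 (by omega)
  rw [map_sub, coeff_one_ah] at this
  linarith

theorem three_beta {q : ℕ} (hq : 1 ≤ q) (Q : Polynomial ℤ)
    (hQ : Pseq q = 1 + Polynomial.C ((2 * q + 1 : ℕ) : ℤ) * Q) (hdeg : Q.natDegree ≤ q) :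
    3 * beta (2 * q + 1) = ((2 * q + 1 : ℕ) : ℤ) ^ 3 * (Q ^ 3).coeff (2 * q + 1) := by
  obtain ⟨G, -, hG⟩ := exists_poly (U (2 * q + 1) (Eser (2 * q + 1) ^ 1)) 1
  have h1 := U_coeffs_pow q 1 G 1 hG 1 le_rfl le_rfl
  have h2 := coeff_one_of_dvd le_rfl hG
  rw [coeff_U, pow_one, mul_one, coeff_p_Eser _ (by omega)] at h2
  rw [coeff_P_pow q _ _ Q hQ, ← h2] at h1
  simp only [mul_one] at h1
  rw [show 1 + 2 + 1 = 4 by norm_num, Finset.sum_range_succ, Finset.sum_range_succ,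
    Finset.sum_range_succ, Finset.sum_range_one,
    coeff_Q_pow_eq_zero q Q hdeg 0 _ (by omega), coeff_Q_pow_eq_zero q Q hdeg 1 _ (by omega),
    coeff_Q_pow_eq_zero q Q hdeg 2 _ (by omega)] at h1
  norm_num at h1
  push_cast
  linarith

theorem beta_three : beta 3 = 9 := by decide

theorem kap_dvd_beta {q : ℕ} (hq : 1 ≤ q) (hp : (2 * q + 1).Prime) :
    ((2 * q + 1 : ℕ) : ℤ) ^ (kap (2 * q + 1)) ∣ beta (2 * q + 1) := by
  by_cases h3 : 2 * q + 1 = 3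
  · rw [h3, beta_three, kap, if_pos rfl]; norm_num
  · obtain ⟨Q, hQ, hdeg, -, -⟩ := exists_Q q hq hp
    have h1 := three_beta hq Q hQ hdeg
    rw [kap, if_neg h3]
    have h2 : ((2 * q + 1 : ℕ) : ℤ) ^ 3 ∣ 3 * beta (2 * q + 1) := ⟨_, h1⟩
    have h4 : IsCoprime (((2 * q + 1 : ℕ) : ℤ) ^ 3) (3 : ℤ) := by
      apply IsCoprime.pow_left
      rw [show (3 : ℤ) = ((3 : ℕ) : ℤ) by norm_num, Nat.isCoprime_iff_coprime]
      exact (Nat.coprime_primes hp Nat.prime_three).mpr h3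
    exact h4.dvd_of_dvd_mul_left h2

theorem isCoprime_two {q : ℕ} (k : ℕ) : IsCoprime (((2 * q + 1 : ℕ) : ℤ) ^ k) (2 : ℤ) := by
  apply IsCoprime.pow_left
  rw [show (2 : ℤ) = ((2 : ℕ) : ℤ) by norm_num, Nat.isCoprime_iff_coprime]
  simp

theorem six_choose (m : ℕ) : 6 * ((m + 2).choose 3 : ℤ) = (m + 2) * (m + 1) * m := by
  have h1 : (m + 2).descFactorial 3 = Nat.factorial 3 * (m + 2).choose 3 :=
    Nat.descFactorial_eq_factorial_mul_choose _ _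
  have h2 : (m + 2).descFactorial 3 = (m + 2) * (m + 1) * m := by
    simp [Nat.descFactorial_succ]; ring
  rw [h2] at h1
  have h3 : ((Nat.factorial 3 * (m + 2).choose 3 : ℕ) : ℤ) = (((m + 2) * (m + 1) * m : ℕ) : ℤ) := by
    rw [h1]
  push_cast at h3
  rw [← h3]; norm_num [Nat.factorial]

/-- first coefficient of `Y`. -/
theorem Y_one {q : ℕ} (hq : 1 ≤ q) (hp : (2 * q + 1).Prime) (m w : ℕ) (hm : 1 ≤ m)
    (hw : (2 * q + 1) ^ w ∣ m ^ 2 * (m + 1)) (G : Polynomial ℤ) (N : ℕ) (hN : 1 ≤ N)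
    (hG : (X : ℤ⟦X⟧) ^ (N + 1) ∣ U (2 * q + 1) (Eser (2 * q + 1) ^ m) - ah G) :
    ((2 * q + 1 : ℕ) : ℤ) ^ (kap (2 * q + 1) + 1 + w) ∣
      2 * G.coeff 1 - (m : ℤ) ^ 2 * (m + 1) * beta (2 * q + 1) := by
  obtain ⟨Q, hQ, hdeg, h0, h1⟩ := exists_Q q hq hp
  have h2 := U_coeffs_pow q m G N hG 1 le_rfl hN
  rw [coeff_P_pow q _ _ Q hQ] at h2
  have hb := three_beta hq Q hQ hdeg
  set p := 2 * q + 1 with hpq
  obtain ⟨μ, M', hM', hM⟩ := Nat.exists_eq_pow_mul_and_not_dvd (n := m + 2 * 1) (by omega) p hp.ne_one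
  have h6c := six_choose m
  by_cases h3 : p = 3
  · have hq1 : q = 1 := by omega
    have hQX := Q_eq_X Q (by omega) h0 (by rw [← hq1]; exact h1)
    have h4 : ∑ i ∈ range (m + 2 * 1 + 1), ((m + 2 * 1).choose i : ℤ) * (p : ℤ) ^ i * (Q ^ i).coeff (p * 1)
        = ((m + 2).choose 3 : ℤ) * 27 := by
      rw [Finset.sum_eq_single 3]
      · rw [hQX, Polynomial.coeff_X_pow, h3]; norm_num
      · intro i _ hi3
        rw [hQX, Polynomial.coeff_X_pow, if_neg (by rw [h3]; omega)]; simp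
      · intro hcon
        exfalso; apply hcon; rw [Finset.mem_range]; omega
    rw [h4] at h2
    have h5 : ((m : ℤ) + 2) * (6 * G.coeff 1) = ((m : ℤ) + 2) * (27 * (m ^ 2 * (m + 1))) := by
      push_cast at h2
      calc ((m : ℤ) + 2) * (6 * G.coeff 1) = 6 * (((m : ℤ) + 2) * G.coeff 1) := by ring
        _ = 27 * m * (6 * ((m + 2).choose 3 : ℤ)) := by rw [h2]; ring
        _ = _ := by rw [h6c]; ring
    have h6 := mul_left_cancel₀ (by positivity : ((m : ℤ) + 2) ≠ 0) h5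
    have h7 : 2 * G.coeff 1 - (m : ℤ) ^ 2 * (m + 1) * beta p = 0 := by
      rw [h3, beta_three]; linarith
    rw [h7]; exact dvd_zero _
  · have h5 : 5 ≤ p := prime_five_le hq h3
    rw [kap, if_neg h3]
    -- isolate `i = 3`
    have hmem : 3 ∈ range (m + 2 * 1 + 1) := by rw [Finset.mem_range]; omega
    rw [← Finset.add_sum_erase _ _ hmem, mul_add, Finset.mul_sum] at h2
    set S := ∑ i ∈ (range (m + 2 * 1 + 1)).erase 3,
      (m : ℤ) * (((m + 2 * 1).choose i : ℤ) * (p : ℤ) ^ i * (Q ^ i).coeff (p * 1)) with hS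
    have hSd : (p : ℤ) ^ (μ + w + 4) ∣ S := by
      apply Finset.dvd_sum
      intro i hi
      rw [Finset.mem_erase] at hi
      rcases Nat.lt_or_ge i 3 with hlt | hge
      · rw [coeff_Q_pow_eq_zero q Q hdeg i _ (by
          have : i * q ≤ 2 * q := Nat.mul_le_mul_right q (by omega)
          omega)]
        simp
      · have h6 := T_bound5_one hp h5 i (by omega)
        have h7 := term_dvd' hp m 1 i hm le_rfl (by omega) w μ M' 4 hw hM h6
        exact dvdr (Dvd.dvd.mul_right h7 ((Q ^ i).coeff (p * 1))) (by ring)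
    have h8 : (p : ℤ) ^ (w + 4) ∣ 3 * (2 * G.coeff 1 - (m : ℤ) ^ 2 * (m + 1) * beta p) := by
      apply cancel_dvd hp μ _ M' _ hM'
      rw [← hM]
      have h9 : (((m + 2 * 1 : ℕ) : ℤ)) * (3 * (2 * G.coeff 1 - (m : ℤ) ^ 2 * (m + 1) * beta p)) = 6 * S := by
        have e1 : (((m + 2 * 1 : ℕ) : ℤ)) * (3 * (2 * G.coeff 1 - (m : ℤ) ^ 2 * (m + 1) * beta p)) =
          6 * ((((m + 2 * 1 : ℕ) : ℤ)) * G.coeff 1) - ((m : ℤ) + 2) * m ^ 2 * (m + 1) * (3 * beta p) := by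
          push_cast; ring
        rw [e1, h2, hb]
        have e2 : (p * 1 : ℕ) = p := mul_one p
        have e3 : (m + 2 * 1 : ℕ) = m + 2 := by ring
        rw [e2, e3]
        linear_combination (m : ℤ) * (p : ℤ) ^ 3 * (Q ^ 3).coeff p * h6c
      rw [h9]
      rw [show μ + (w + 4) = μ + w + 4 by ring]
      exact Dvd.dvd.mul_left hSd 6
    have h4 : IsCoprime ((p : ℤ) ^ (w + 4)) (3 : ℤ) := by
      apply IsCoprime.pow_left
      rw [show (3 : ℤ) = ((3 : ℕ) : ℤ) by norm_num, Nat.isCoprime_iff_coprime]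
      exact (Nat.coprime_primes hp Nat.prime_three).mpr h3
    have h10 := h4.dvd_of_dvd_mul_left h8
    rw [show 3 + 1 + w = w + 4 by ring]
    exact h10

theorem term2 {p : ℕ} (hp : p.Prime) (M i s μ M' : ℕ) (hi : 1 ≤ i) (hM : M = p ^ μ * M')
    (hs : Nat.log p i + s ≤ i) : (p : ℤ) ^ (μ + s) ∣ (M.choose i : ℤ) * (p : ℤ) ^ i := by
  suffices h : p ^ (μ + s) ∣ M.choose i * p ^ i by exact_mod_cast h
  rcases Nat.eq_zero_or_pos M with h0 | hMpos
  · rw [h0, Nat.choose_eq_zero_of_lt hi]; simp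
  obtain ⟨v, i', hi', hv⟩ := Nat.exists_eq_pow_mul_and_not_dvd (n := i) (by omega) p hp.ne_one
  have hvl : v ≤ Nat.log p i := by
    apply Nat.le_log_of_pow_le hp.one_lt
    apply Nat.le_of_dvd (by omega)
    conv_rhs => rw [hv]
    exact dvd_mul_right _ _
  obtain ⟨M0, rfl⟩ : ∃ M0, M = M0 + 1 := ⟨M - 1, by omega⟩
  obtain ⟨i0, rfl⟩ : ∃ i0, i = i0 + 1 := ⟨i - 1, by omega⟩
  have h1 : (M0 + 1) * M0.choose i0 = (M0 + 1).choose (i0 + 1) * (i0 + 1) := Nat.add_one_mul_choose_eq M0 i0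
  have h2 : i' * ((M0 + 1).choose (i0 + 1) * p ^ (i0 + 1)) = p ^ μ * M' * M0.choose i0 * p ^ (i0 + 1 - v) := by
    have h3 : p ^ (i0 + 1) = p ^ v * p ^ (i0 + 1 - v) := by rw [← pow_add]; congr 1; omega
    have h5 : (M0 + 1).choose (i0 + 1) * (i0 + 1) = (M0 + 1).choose (i0 + 1) * (p ^ v * i') := by
      rw [← hv]
    rw [h3, ← hM, h1, h5]
    ring
  have h4 : p ^ (μ + s) ∣ i' * ((M0 + 1).choose (i0 + 1) * p ^ (i0 + 1)) := by
    rw [h2]
    obtain ⟨f, hf⟩ : p ^ s ∣ p ^ (i0 + 1 - v) := pow_dvd_pow p (by omega)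
    rw [hf]
    exact ⟨M' * M0.choose i0 * f, by rw [pow_add]; ring⟩
  exact (Nat.Coprime.pow_left _ ((Nat.Prime.coprime_iff_not_dvd hp).mpr hi')).dvd_of_dvd_mul_left h4

theorem H_high {q : ℕ} (hq : 1 ≤ q) (hp : (2 * q + 1).Prime) (m : ℕ)
    (G : Polynomial ℤ) (N : ℕ)
    (hG : (X : ℤ⟦X⟧) ^ (N + 1) ∣ U (2 * q + 1) (Eser (2 * q + 1) ^ m * h) - ah G) (j : ℕ)
    (hj : 2 ≤ j) (hjN : j ≤ N) :
    ((2 * q + 1 : ℕ) : ℤ) ^ (2 + Nat.log (2 * q + 1) (2 * j - 1)) ∣ G.coeff j := by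
  obtain ⟨Q, hQ, hdeg, h0, h1⟩ := exists_Q q hq hp
  have h2 := U_coeffs_X_pow q m G N hG j (by omega) hjN
  rw [coeff_P_pow q _ _ Q hQ] at h2
  set p := 2 * q + 1 with hpq
  obtain ⟨μ, M', hM', hM⟩ := Nat.exists_eq_pow_mul_and_not_dvd (n := m + 2 * j) (by omega) p hp.ne_one
  have h3 : (p : ℤ) ^ (3 + Nat.log p (2 * j - 1)) ∣ (p : ℤ) * G.coeff j := by
    apply cancel_dvd hp μ _ M' _ hM'
    rw [← hM, h2]
    apply Dvd.dvd.mul_left
    apply Finset.dvd_sum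
    intro i _
    have hpj : p * j = 2 * j * q + j := by rw [hpq]; ring
    rcases Nat.lt_or_ge (i * q) (p * j - 1) with hlt | hge
    · rw [coeff_Q_pow_eq_zero q Q hdeg i _ hlt]; simp
    have hi : 2 * j + 1 ≤ i := by
      by_contra hcon
      push Not at hcon
      have : i * q ≤ 2 * j * q := Nat.mul_le_mul_right q (by omega)
      omega
    by_cases h3 : p = 3
    · have hq1 : q = 1 := by omega
      have hQX := Q_eq_X Q (by omega) h0 (by rw [← hq1]; exact h1)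
      by_cases hij : i = 3 * j - 1
      · apply Dvd.dvd.mul_right
        rw [show μ + (3 + Nat.log p (2 * j - 1)) = μ + (3 + Nat.log p (2 * j - 1)) by ring]
        apply term2 hp _ i _ μ M' (by omega) hM
        have h5 := log_le_div3 i
        have h8 := log_le_div3 (2 * j - 1)
        rw [h3]
        omega
      · rw [hQX, Polynomial.coeff_X_pow, if_neg (by rw [h3]; omega)]; simp
    · have h5 : 5 ≤ p := prime_five_le hq h3
      apply Dvd.dvd.mul_right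
      apply term2 hp _ i _ μ M' (by omega) hM
      have h5' := log_le_div5 p i h5
      have h8 := log_le_div5 p (2 * j - 1) h5
      omega
  have h4 : (p : ℤ) * (p : ℤ) ^ (2 + Nat.log p (2 * j - 1)) ∣ (p : ℤ) * G.coeff j := by
    rw [← pow_succ']
    rw [show 2 + Nat.log p (2 * j - 1) + 1 = 3 + Nat.log p (2 * j - 1) by ring]
    exact h3
  exact (mul_dvd_mul_iff_left (by exact_mod_cast hp.ne_zero)).mp h4

theorem H_one {q : ℕ} (hq : 1 ≤ q) (hp : (2 * q + 1).Prime) (m : ℕ)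
    (G : Polynomial ℤ) (N : ℕ) (hN : 1 ≤ N)
    (hG : (X : ℤ⟦X⟧) ^ (N + 1) ∣ U (2 * q + 1) (Eser (2 * q + 1) ^ m * h) - ah G) :
    ((2 * q + 1 : ℕ) : ℤ) ^ 2 ∣ G.coeff 1 - (m + 1) * ((2 * q + 1 : ℕ) : ℤ) := by
  obtain ⟨Q, hQ, hdeg, h0, h1⟩ := exists_Q q hq hp
  have h2 := U_coeffs_X_pow q m G N hG 1 le_rfl hN
  rw [coeff_P_pow q _ _ Q hQ] at h2
  set p := 2 * q + 1 with hpq
  have hp3 : 3 ≤ p := by omega
  obtain ⟨μ, M', hM', hM⟩ := Nat.exists_eq_pow_mul_and_not_dvd (n := m + 2 * 1) (by omega) p hp.ne_one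
  have hmem : 2 ∈ range (m + 2 * 1 + 1) := by rw [Finset.mem_range]; omega
  rw [← Finset.add_sum_erase _ _ hmem] at h2
  set S := ∑ i ∈ (range (m + 2 * 1 + 1)).erase 2,
      (((m + 2 * 1).choose i : ℤ) * (p : ℤ) ^ i * (Q ^ i).coeff (p * 1 - 1)) with hS
  have hSd : (p : ℤ) ^ (μ + 3) ∣ S := by
    apply Finset.dvd_sum
    intro i hi
    rw [Finset.mem_erase] at hi
    rcases Nat.lt_or_ge i 2 with hlt | hge
    · rw [coeff_Q_pow_eq_zero q Q hdeg i _ (by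
        have : i * q ≤ 1 * q := Nat.mul_le_mul_right q (by omega)
        omega)]
      simp
    rcases Nat.lt_or_ge (p * 1 - 1) i with hlt2 | hge2
    · rw [coeff_Q_pow_eq_zero' Q h0 i _ hlt2]; simp
    apply Dvd.dvd.mul_right
    apply term2 hp _ i _ μ M' (by omega) hM
    have : Nat.log p i = 0 := Nat.log_of_lt (by omega)
    omega
  have hQ2 : (Q ^ 2).coeff (p * 1 - 1) = 1 := by
    have := Polynomial.coeff_pow_of_natDegree_le (m := 2) hdeg
    rw [show p * 1 - 1 = 2 * q by omega, this, h1]; norm_num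
  rw [hQ2] at h2
  have hc2 : 2 * ((m + 2 * 1).choose 2 : ℤ) = (m + 2) * (m + 1) := by
    have h5 : (m + 2).choose 2 * 2 = (m + 2) * (m + 1) := by
      have := Nat.triangle_succ (m + 1)
      have h6 := Nat.choose_two_right (m + 2)
      rw [h6]
      have h7 : Even ((m + 2) * (m + 2 - 1)) := by
        rw [show m + 2 - 1 = m + 1 by omega, mul_comm]; exact Nat.even_mul_succ_self (m + 1)
      rw [Nat.div_mul_cancel h7.two_dvd]
      rw [show m + 2 - 1 = m + 1 by omega]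
    have h8 : (((m + 2).choose 2 * 2 : ℕ) : ℤ) = (((m + 2) * (m + 1) : ℕ) : ℤ) := by rw [h5]
    push_cast at h8
    rw [show m + 2 * 1 = m + 2 by ring]
    linarith
  have h8 : (p : ℤ) ^ 3 ∣ 2 * ((p : ℤ) * G.coeff 1) - (2 + m * p) * (m + 1) * p ^ 2 := by
    apply cancel_dvd hp μ _ M' _ hM'
    rw [← hM]
    have h9 : (((m + 2 * 1 : ℕ) : ℤ)) * (2 * ((p : ℤ) * G.coeff 1) - (2 + m * p) * (m + 1) * p ^ 2) =
        2 * (2 + m * p) * S := by
      have e1 : (((m + 2 * 1 : ℕ) : ℤ)) * (2 * ((p : ℤ) * G.coeff 1) - (2 + m * p) * (m + 1) * p ^ 2) =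
        2 * (((m + 2 * 1 : ℕ) : ℤ) * ((p : ℤ) * G.coeff 1)) - ((m : ℤ) + 2) * (2 + m * p) * (m + 1) * p ^ 2 := by
        push_cast; ring
      rw [e1, h2]
      linear_combination (2 + (m : ℤ) * p) * (p : ℤ) ^ 2 * hc2
    rw [h9]
    exact Dvd.dvd.mul_left hSd _
  have h9 : (p : ℤ) * (p : ℤ) ^ 2 ∣ (p : ℤ) * (2 * G.coeff 1 - (2 + m * p) * (m + 1) * p) := by
    rw [← pow_succ']
    exact dvdr h8 (by ring)
  have h10 := (mul_dvd_mul_iff_left (by exact_mod_cast hp.ne_zero)).mp h9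
  have h11 : (p : ℤ) ^ 2 ∣ 2 * (G.coeff 1 - (m + 1) * p) := by
    have h12 : (p : ℤ) ^ 2 ∣ (m : ℤ) * (m + 1) * p ^ 2 := Dvd.dvd.mul_left (dvd_refl _) _
    exact dvdr (dvd_add h10 h12) (by ring)
  exact (isCoprime_two (q := q) 2).dvd_of_dvd_mul_left h11

end Pool.Agent.Lib.MP_26251e_nt
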