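import Mathlib
import Pool.Agent.Lib.MP_26251e_nt.A7

namespace Pool.Agent.Lib.MP_26251e_nt

open PowerSeries Finset

theorem coeff_zero_Y (p m : ℕ) (hp : 1 ≤ p) : coeff 0 (Y p m) = 0 := by
  rw [Y, map_sub, coeff_U, mul_zero, Eser, coeff_zero_eq_constantCoeff, map_pow, map_mul, map_pow,
    map_sub, map_pow]
  have : constantCoeff (geom 1) = 1 := by
    rw [← coeff_zero_eq_constantCoeff_apply]; simp [geom]
  rw [this]
  have hp0 : p ≠ 0 := by omega
  simp [hp0]

theorem log_cond {p : ℕ} (hp : p.Prime) (j : ℕ) : 2 * j - 1 < p ^ (Nat.log p (2 * j - 1) + 1) :=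
  Nat.lt_pow_succ_log_self hp.one_lt _

/-- decomposition of `Y`: `Y = y₁ h + Y'` with `Y'` one power of `p` better. -/
theorem Y_decomp {q : ℕ} (hq : 1 ≤ q) (hp : (2 * q + 1).Prime) (m w : ℕ) (hm : 1 ≤ m)
    (hw : (2 * q + 1) ^ w ∣ m ^ 2 * (m + 1)) :
    ∃ (y : ℤ) (Y' : ℤ⟦X⟧), Y (2 * q + 1) m = C y * h + Y' ∧
      Lip (2 * q + 1) (kap (2 * q + 1) + w + 1) Y' ∧
      ((2 * q + 1 : ℕ) : ℤ) ^ (kap (2 * q + 1) + 1 + w) ∣
        2 * y - (m : ℤ) ^ 2 * (m + 1) * beta (2 * q + 1) := by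
  set p := 2 * q + 1 with hpq
  refine ⟨coeff 1 (Y p m), Y p m - C (coeff 1 (Y p m)) * h, by ring, ?_, ?_⟩
  · apply Lip_of_coeffs hp
    · rw [map_sub, coeff_zero_Y p m (by omega), coeff_C_mul]
      have := coeff_h_pow 1 0 le_rfl
      rw [pow_one] at this
      rw [this]; simp
    · intro N G hG j hj hjN
      -- polynomial for `U(E^m)`
      set G' : Polynomial ℤ := G + 1 + Polynomial.C (coeff 1 (Y p m)) * Polynomial.X with hG'
      have h1 : (X : ℤ⟦X⟧) ^ (N + 1) ∣ U p (Eser p ^ m) - ah G' := by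
        have e1 : U p (Eser p ^ m) - ah G' = Y p m - C (coeff 1 (Y p m)) * h - ah G := by
          rw [hG', map_add, map_add, map_one, map_mul, ah_X]
          have : ah (Polynomial.C (coeff 1 (Y p m))) = C (coeff 1 (Y p m)) := by
            rw [ah, Polynomial.aeval_C]; rfl
          rw [this]
          rw [show U p (Eser p ^ m) = Y p m + 1 by rw [Y]; ring]
          ring
        rw [e1]; exact hG
      rcases Nat.lt_or_ge j 2 with hlt | hge
      · have hj1 : j = 1 := by omega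
        subst hj1
        refine ⟨0, by rw [zero_add, pow_one]; omega, ?_⟩
        have h2 := coeff_one_of_dvd hjN h1
        have h3 : coeff 1 (U p (Eser p ^ m)) = coeff 1 (Y p m) := by
          rw [Y, map_sub, coeff_one]; simp
        rw [h3, hG', Polynomial.coeff_add, Polynomial.coeff_add, Polynomial.coeff_C_mul,
          Polynomial.coeff_X_one, Polynomial.coeff_one] at h2
        simp only [one_ne_zero, if_false] at h2
        have h4 : G.coeff 1 = 0 := by linarith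
        rw [h4]; exact dvd_zero _
      · refine ⟨Nat.log p (2 * j - 1), log_cond hp j, ?_⟩
        have h2 := Y_high hq hp m w hm hw G' N h1 j hge hjN
        rw [hG', Polynomial.coeff_add, Polynomial.coeff_add, Polynomial.coeff_C_mul,
          Polynomial.coeff_X, Polynomial.coeff_one, if_neg (by omega), if_neg (by omega),
          mul_zero, add_zero, add_zero] at h2
        rw [show kap p + w + 1 + Nat.log p (2 * j - 1) = kap p + 1 + w + Nat.log p (2 * j - 1) by ring]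
        exact h2
  · obtain ⟨G, -, hG⟩ := exists_poly (U p (Eser p ^ m)) 1
    have h1 := Y_one hq hp m w hm hw G 1 le_rfl hG
    have h2 := coeff_one_of_dvd le_rfl hG
    have h3 : coeff 1 (U p (Eser p ^ m)) = coeff 1 (Y p m) := by
      rw [Y, map_sub, coeff_one]; simp
    rw [← h3, h2]
    exact h1

/-- decomposition of `Ψ(h)`. -/
theorem H_decomp {q : ℕ} (hq : 1 ≤ q) (hp : (2 * q + 1).Prime) (m : ℕ) :
    ∃ (v : ℤ) (H' : ℤ⟦X⟧), Psi (2 * q + 1) m h = C v * h + H' ∧
      Lip (2 * q + 1) 2 H' ∧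
      ((2 * q + 1 : ℕ) : ℤ) ^ 2 ∣ v - (m + 1) * ((2 * q + 1 : ℕ) : ℤ) := by
  set p := 2 * q + 1 with hpq
  refine ⟨coeff 1 (Psi p m h), Psi p m h - C (coeff 1 (Psi p m h)) * h, by ring, ?_, ?_⟩
  · have hh0 : coeff 0 h = 0 := by
      have := coeff_h_pow 1 0 le_rfl
      rw [pow_one] at this
      rw [this]; simp
    apply Lip_of_coeffs hp
    · rw [map_sub, coeff_C_mul, hh0, Psi, coeff_U, mul_zero, coeff_mul]
      simp [hh0]
    · intro N G hG j hj hjN
      set G' : Polynomial ℤ := G + Polynomial.C (coeff 1 (Psi p m h)) * Polynomial.X with hG'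
      have h1 : (X : ℤ⟦X⟧) ^ (N + 1) ∣ U p (Eser p ^ m * h) - ah G' := by
        have e1 : U p (Eser p ^ m * h) - ah G' = Psi p m h - C (coeff 1 (Psi p m h)) * h - ah G := by
          rw [hG', map_add, map_mul, ah_X]
          have : ah (Polynomial.C (coeff 1 (Psi p m h))) = C (coeff 1 (Psi p m h)) := by
            rw [ah, Polynomial.aeval_C]; rfl
          rw [this]
          rw [show U p (Eser p ^ m * h) = Psi p m h by rfl]
          ring
        rw [e1]; exact hG
      rcases Nat.lt_or_ge j 2 with hlt | hge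
      · have hj1 : j = 1 := by omega
        subst hj1
        refine ⟨0, by rw [zero_add, pow_one]; omega, ?_⟩
        have h2 := coeff_one_of_dvd hjN h1
        have h3 : coeff 1 (U p (Eser p ^ m * h)) = coeff 1 (Psi p m h) := rfl
        rw [h3, hG', Polynomial.coeff_add, Polynomial.coeff_C_mul,
          Polynomial.coeff_X_one] at h2
        have h4 : G.coeff 1 = 0 := by linarith
        rw [h4]; exact dvd_zero _
      · refine ⟨Nat.log p (2 * j - 1), log_cond hp j, ?_⟩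
        have h2 := H_high hq hp m G' N h1 j hge hjN
        rw [hG', Polynomial.coeff_add, Polynomial.coeff_C_mul,
          Polynomial.coeff_X, if_neg (by omega),
          mul_zero, add_zero] at h2
        exact h2
  · obtain ⟨G, -, hG⟩ := exists_poly (U p (Eser p ^ m * h)) 1
    have h1 := H_one hq hp m G 1 le_rfl hG
    have h2 := coeff_one_of_dvd le_rfl hG
    have h3 : coeff 1 (U p (Eser p ^ m * h)) = coeff 1 (Psi p m h) := rfl
    rw [← h3, h2]
    exact h1

theorem Psi_add (p m : ℕ) (A B : ℤ⟦X⟧) : Psi p m (A + B) = Psi p m A + Psi p m B := by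
  rw [Psi, mul_add, U_add]; rfl

theorem Psi_C_mul (p m : ℕ) (c : ℤ) (A : ℤ⟦X⟧) : Psi p m (C c * A) = C c * Psi p m A := by
  rw [Psi, show Eser p ^ m * (C c * A) = C c * (Eser p ^ m * A) by ring, U_C_mul]; rfl

theorem Psi_iter_add (p m r : ℕ) (A B : ℤ⟦X⟧) :
    (Psi p m)^[r] (A + B) = (Psi p m)^[r] A + (Psi p m)^[r] B := by
  induction r generalizing A B with
  | zero => simp
  | succ r ih => rw [Function.iterate_succ_apply, Psi_add, ih]; rfl

theorem Psi_iter_C_mul (p m r : ℕ) (c : ℤ) (A : ℤ⟦X⟧) :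
    (Psi p m)^[r] (C c * A) = C c * (Psi p m)^[r] A := by
  induction r generalizing A with
  | zero => simp
  | succ r ih => rw [Function.iterate_succ_apply, Psi_C_mul, ih]; rfl

theorem Psi_iter_h {q : ℕ} (hq : 1 ≤ q) (hp : (2 * q + 1).Prime) (m : ℕ) (v : ℤ) (H' : ℤ⟦X⟧)
    (hv : Psi (2 * q + 1) m h = C v * h + H') (hH : Lip (2 * q + 1) 2 H')
    (hvd : ((2 * q + 1 : ℕ) : ℤ) ∣ v) (r : ℕ) :
    ∃ H : ℤ⟦X⟧, (Psi (2 * q + 1) m)^[r] h = C (v ^ r) * h + H ∧ Lip (2 * q + 1) (r + 1) H := by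
  set p := 2 * q + 1 with hpq
  have hE := Lip_E_pow (by omega : 1 ≤ p) (Lip_E hq hp) m
  induction r with
  | zero => exact ⟨0, by simp, Lip.zero⟩
  | succ r ih =>
    obtain ⟨H, h1, h2⟩ := ih
    refine ⟨C (v ^ r) * H' + Psi p m H, ?_, ?_⟩
    · rw [Function.iterate_succ_apply', h1, Psi_add, Psi_C_mul, hv, pow_succ, map_mul]; ring
    · apply Lip.add
      · have h3 : (p : ℤ) ^ r ∣ v ^ r := pow_dvd_pow_of_dvd hvd r
        have h4 := hH.C_mul h3
        rwa [show 2 + r = r + 1 + 1 by ring] at h4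
      · exact Lip.psi (by omega) hE h2

theorem d_zero (p m : ℕ) : d p m 0 = 1 := by
  rw [d, genTrunc, coeff_zero_eq_constantCoeff, map_mul, map_pow, map_prod]
  have : ∀ k, constantCoeff (geom k) = 1 := by
    intro k
    rw [← coeff_zero_eq_constantCoeff_apply]; simp [geom]
  simp [this]

theorem dvd_d {p m : ℕ} (hp : p.Prime) (hodd : Odd p) (n : ℕ) (hn : 1 ≤ n) : (p : ℤ) ∣ d p m n := by
  obtain ⟨R, hR⟩ := C_dvd_Eser_sub_one hp hodd
  obtain ⟨R', hR'⟩ : ∃ R', Eser p ^ m - 1 = C (p : ℤ) * R' := by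
    have := sub_dvd_pow_sub_pow (Eser p) 1 m
    rw [one_pow, hR] at this
    exact (dvd_mul_right _ _).trans this
  have hp0 : p ≠ 0 := hp.ne_zero
  induction n using Nat.strong_induction_on with
  | _ n ih =>
    have h1 := gen_functional p m hp.two_le
    have h2 : gen p m = expand p hp0 (gen p m) + C (p : ℤ) * (R' * expand p hp0 (gen p m)) := by
      conv_lhs => rw [h1]
      calc Eser p ^ m * expand p hp0 (gen p m) = (Eser p ^ m - 1) * expand p hp0 (gen p m) + expand p hp0 (gen p m) := by ring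
        _ = _ := by rw [hR']; ring
    have h3 := congrArg (coeff n) h2
    rw [map_add, coeff_C_mul] at h3
    have h4 : coeff n (gen p m) = d p m n := by simp [gen]
    rw [h4] at h3
    rw [h3]
    apply dvd_add _ (dvd_mul_right _ _)
    rw [coeff_expand]
    split_ifs with hd
    · obtain ⟨k, rfl⟩ := hd
      rw [Nat.mul_div_cancel_left _ hp.pos]
      have hk : 1 ≤ k := by
        rcases Nat.eq_zero_or_pos k with rfl | hk
        · simp at hn
        · exact hk
      have : coeff k (gen p m) = d p m k := by simp [gen]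
      rw [this]
      apply ih k _ hk
      have := hp.two_le
      nlinarith
    · exact dvd_zero _

theorem coeff_h_gen {p m : ℕ} (hp : p.Prime) (hodd : Odd p) (u : ℕ) :
    (p : ℤ) ∣ coeff u (h * gen p m) - u := by
  rw [coeff_mul, Finset.Nat.sum_antidiagonal_eq_sum_range_succ
      (fun i j => coeff i h * coeff j (gen p m)), Finset.sum_range_succ]
  have h1 : coeff u h = u := by
    have := coeff_h_pow 1 u le_rfl
    rw [pow_one] at this
    rw [this]; simp
  have h2 : coeff (u - u) (gen p m) = 1 := by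
    rw [Nat.sub_self]; simp [gen, d_zero]
  rw [h1, h2, mul_one, add_sub_cancel_right]
  apply Finset.dvd_sum
  intro i hi
  rw [Finset.mem_range] at hi
  have : coeff (u - i) (gen p m) = d p m (u - i) := by simp [gen]
  rw [this]
  exact Dvd.dvd.mul_left (dvd_d hp hodd _ (by omega)) _

/-- **Master congruence**, one step. -/
theorem master_step {p : ℕ} (hp : p.Prime) (hp3 : 3 ≤ p) (m w r u : ℕ) (hm : 1 ≤ m)
    (hw : p ^ w ∣ m ^ 2 * (m + 1)) :
    (p : ℤ) ^ (kap p + w + r + 1) ∣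
      2 * (d p m (p * (p ^ r * u)) - d p m (p ^ r * u)) -
        (m : ℤ) ^ 2 * (m + 1) * beta p * ((m + 1) * p) ^ r * u := by
  obtain ⟨q, hq⟩ : ∃ q, p = 2 * q + 1 := by
    rcases hp.eq_two_or_odd' with h | h
    · omega
    · exact h
  subst hq
  set p := 2 * q + 1 with hpq
  have hq1 : 1 ≤ q := by omega
  have hE := Lip_E_pow (by omega : 1 ≤ p) (Lip_E hq1 hp) m
  obtain ⟨y, Y', hY, hYL, hy⟩ := Y_decomp hq1 hp m w hm hw
  obtain ⟨v, H', hH, hHL, hv⟩ := H_decomp hq1 hp m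
  simp only [← hpq] at hY hYL hy hH hHL hv
  have hvp : (p : ℤ) ∣ v := by
    have h1 : (p : ℤ) ∣ v - (m + 1) * (p : ℤ) := (Dvd.intro_left ((p : ℤ) ^ 1) (by ring)).trans hv
    have h2 : (p : ℤ) ∣ (m + 1) * (p : ℤ) := dvd_mul_left _ _
    exact dvdr (dvd_add h1 h2) (by ring)
  obtain ⟨H, h3, h4⟩ := Psi_iter_h hq1 hp m v H' hH hHL hvp r
  rw [← hpq] at h3 h4
  have hβ := kap_dvd_beta hq1 hp
  rw [← hpq] at hβ
  have hwz : (p : ℤ) ^ w ∣ (m : ℤ) ^ 2 * (m + 1) := by exact_mod_cast hw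
  have hmb : (p : ℤ) ^ (kap p + w) ∣ (m : ℤ) ^ 2 * (m + 1) * beta p := by
    rw [add_comm, pow_add]; exact mul_dvd_mul hwz hβ
  have hyd : (p : ℤ) ^ (kap p + w) ∣ y := by
    have h5 : (p : ℤ) ^ (kap p + w) ∣ 2 * y := by
      have h6 := (pow_dvd_pow (p : ℤ) (by omega : kap p + w ≤ kap p + 1 + w)).trans hy
      exact dvdr (dvd_add h6 hmb) (by ring)
    exact (isCoprime_two (q := q) _).dvd_of_dvd_mul_left h5
  -- the iterate
  clear_value p
  have h5 : (Psi p m)^[r] (Y p m) = C (y * v ^ r) * h + (C y * H + (Psi p m)^[r] Y') := by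
    rw [hY, Psi_iter_add, Psi_iter_C_mul, h3, map_mul]; ring
  have h6 : Lip p (kap p + w + r + 1) (C y * H + (Psi p m)^[r] Y') := by
    apply Lip.add
    · have := h4.C_mul hyd
      rwa [show r + 1 + (kap p + w) = kap p + w + r + 1 by ring] at this
    · have := Lip.psi_iter (by omega) hE hYL r
      rwa [show kap p + w + 1 + r = kap p + w + r + 1 by ring] at this
  have h7 := d_sub_d p m r u (by omega)
  rw [h5, add_mul, map_add, mul_assoc, coeff_C_mul] at h7
  have h8 : (p : ℤ) ^ (kap p + w + r + 1) ∣ coeff u ((C y * H + (Psi p m)^[r] Y') * gen p m) := by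
    rw [coeff_mul]
    apply Finset.dvd_sum
    intro x _
    exact Dvd.dvd.mul_right (h6.dvd _) _
  have h9 : (p : ℤ) ^ (kap p + w + r + 1) ∣ y * v ^ r * (coeff u (h * gen p m) - u) := by
    rw [pow_succ, pow_add]
    exact mul_dvd_mul (mul_dvd_mul hyd (pow_dvd_pow_of_dvd hvp r)) (coeff_h_gen hp ⟨q, hpq⟩ u)
  have h10 : (p : ℤ) ^ (kap p + w + r + 1) ∣ (2 * y - (m : ℤ) ^ 2 * (m + 1) * beta p) * v ^ r * u := by
    have : (p : ℤ) ^ (kap p + w + r + 1) = (p : ℤ) ^ (kap p + 1 + w) * (p : ℤ) ^ r := by ring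
    rw [this]
    exact Dvd.dvd.mul_right (mul_dvd_mul hy (pow_dvd_pow_of_dvd hvp r)) _
  have h11 : (p : ℤ) ^ (r + 1) ∣ v ^ r - ((m + 1) * p) ^ r := by
    obtain ⟨v', rfl⟩ := hvp
    have h12 : (p : ℤ) ∣ v' - (m + 1) := by
      have h13 : (p : ℤ) * p ∣ p * (v' - (m + 1)) := by
        rw [← sq]
        exact dvdr hv (by ring)
      exact (mul_dvd_mul_iff_left (by exact_mod_cast hp.ne_zero)).mp h13
    have h14 : (p : ℤ) ∣ v' ^ r - (m + 1) ^ r := h12.trans (sub_dvd_pow_sub_pow _ _ _)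
    rw [mul_pow, mul_pow, pow_succ]
    have : (p : ℤ) ^ r * v' ^ r - ((m : ℤ) + 1) ^ r * p ^ r = p ^ r * (v' ^ r - (m + 1) ^ r) := by ring
    rw [this]
    exact mul_dvd_mul_left _ h14
  have h15 : (p : ℤ) ^ (kap p + w + r + 1) ∣
      (m : ℤ) ^ 2 * (m + 1) * beta p * (v ^ r - ((m + 1) * p) ^ r) * u := by
    rw [show kap p + w + r + 1 = (kap p + w) + (r + 1) by ring, pow_add]
    exact Dvd.dvd.mul_right (mul_dvd_mul hmb h11) _
  rw [h7]
  have h16 := dvd_add (dvd_add (Dvd.dvd.mul_left h8 2) (Dvd.dvd.mul_left h9 2)) (dvd_add h10 h15)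
  exact dvdr h16 (by ring)

/-- **Master congruence** for `d_m(p²n) - d_m(n)`, `n = p^r u`. -/
theorem master {p : ℕ} (hp : p.Prime) (hp3 : 3 ≤ p) (m w r u : ℕ) (hm : 1 ≤ m)
    (hw : p ^ w ∣ m ^ 2 * (m + 1)) :
    (p : ℤ) ^ (kap p + w + r + 1) ∣
      2 * (d p m (p ^ 2 * (p ^ r * u)) - d p m (p ^ r * u)) -
        (m : ℤ) ^ 2 * (m + 1) * beta p * ((m + 1) * p) ^ r * u := by
  have h1 := master_step hp hp3 m w r u hm hw
  have h2 := master_step hp hp3 m w (r + 1) u hm hw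
  have hβ : (p : ℤ) ^ kap p ∣ beta p := by
    obtain ⟨q, hq⟩ : ∃ q, p = 2 * q + 1 := by
      rcases hp.eq_two_or_odd' with h | h
      · omega
      · exact h
    subst hq
    exact kap_dvd_beta (by omega) hp
  have hwz : (p : ℤ) ^ w ∣ (m : ℤ) ^ 2 * (m + 1) := by exact_mod_cast hw
  have h3 : (p : ℤ) ^ (kap p + w + r + 1) ∣
      (m : ℤ) ^ 2 * (m + 1) * beta p * ((m + 1) * p) ^ (r + 1) * u := by
    have e1 : (m : ℤ) ^ 2 * (m + 1) * beta p * ((m + 1) * p) ^ (r + 1) * u =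
      ((m : ℤ) ^ 2 * (m + 1)) * beta p * (p : ℤ) ^ (r + 1) * ((m + 1) ^ (r + 1) * u) := by
      rw [mul_pow]; ring
    rw [e1, show kap p + w + r + 1 = w + kap p + (r + 1) by ring, pow_add, pow_add]
    exact Dvd.dvd.mul_right (mul_dvd_mul (mul_dvd_mul hwz hβ) (dvd_refl _)) _
  have h4 := (pow_dvd_pow (p : ℤ) (by omega : kap p + w + r + 1 ≤ kap p + w + (r + 1) + 1)).trans h2
  have h5 := dvd_add h1 (dvd_add h4 h3)
  have e2 : p * (p ^ (r + 1) * u) = p ^ 2 * (p ^ r * u) := by ring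
  have e3 : p * (p ^ r * u) = p ^ (r + 1) * u := by ring
  rw [e2, e3] at h5
  exact dvdr h5 (by ring)

end Pool.Agent.Lib.MP_26251e_nt
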