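import Mathlib
import Pool.Agent.Lib.MP_26251e_nt.A8

namespace Pool.Agent.Lib.MP_26251e_nt

open Finset

theorem isCoprime_two' {p : ℕ} (hp : p.Prime) (hp3 : 3 ≤ p) (k : ℕ) :
    IsCoprime ((p : ℤ) ^ k) (2 : ℤ) := by
  apply IsCoprime.pow_left
  rw [show (2 : ℤ) = ((2 : ℕ) : ℤ) by norm_num, Nat.isCoprime_iff_coprime]
  exact (Nat.coprime_primes hp Nat.prime_two).mpr (by omega)

theorem kap_dvd_beta' {p : ℕ} (hp : p.Prime) (hp3 : 3 ≤ p) : (p : ℤ) ^ kap p ∣ beta p := by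
  obtain ⟨q, hq⟩ : ∃ q, p = 2 * q + 1 := by
    rcases hp.eq_two_or_odd' with h | h
    · omega
    · exact h
  subst hq
  exact kap_dvd_beta (by omega) hp

/-- lower bound for the valuation. -/
theorem lower {p : ℕ} (hp : p.Prime) (hp3 : 3 ≤ p) (m w r u : ℕ) (hm : 1 ≤ m)
    (hw : p ^ w ∣ m ^ 2 * (m + 1)) :
    (p : ℤ) ^ (kap p + w + r) ∣ d p m (p ^ 2 * (p ^ r * u)) - d p m (p ^ r * u) := by
  have h1 := master hp hp3 m w r u hm hw
  have hβ := kap_dvd_beta' hp hp3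
  have hwz : (p : ℤ) ^ w ∣ (m : ℤ) ^ 2 * (m + 1) := by exact_mod_cast hw
  have h2 : (p : ℤ) ^ (kap p + w + r) ∣ (m : ℤ) ^ 2 * (m + 1) * beta p * ((m + 1) * p) ^ r * u := by
    have e1 : (m : ℤ) ^ 2 * (m + 1) * beta p * ((m + 1) * p) ^ r * u =
      ((m : ℤ) ^ 2 * (m + 1)) * beta p * (p : ℤ) ^ r * ((m + 1) ^ r * u) := by
      rw [mul_pow]; ring
    rw [e1, show kap p + w + r = w + kap p + r by ring, pow_add, pow_add]
    exact Dvd.dvd.mul_right (mul_dvd_mul (mul_dvd_mul hwz hβ) (dvd_refl _)) _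
  have h3 := (pow_dvd_pow (p : ℤ) (by omega : kap p + w + r ≤ kap p + w + r + 1)).trans h1
  have h4 : (p : ℤ) ^ (kap p + w + r) ∣ 2 * (d p m (p ^ 2 * (p ^ r * u)) - d p m (p ^ r * u)) :=
    dvdr (dvd_add h3 h2) (by ring)
  exact (isCoprime_two' hp hp3 _).dvd_of_dvd_mul_left h4

theorem upperW {p : ℕ} (hp : p.Prime) (hp3 : 3 ≤ p) (m w r u : ℕ) (hm : 1 ≤ m)
    (hw : p ^ w ∣ m ^ 2 * (m + 1)) (hW : (p : ℤ) ^ (kap p + 1) ∣ beta p) :
    (p : ℤ) ^ (kap p + w + r + 1) ∣ d p m (p ^ 2 * (p ^ r * u)) - d p m (p ^ r * u) := by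
  have h1 := master hp hp3 m w r u hm hw
  have hwz : (p : ℤ) ^ w ∣ (m : ℤ) ^ 2 * (m + 1) := by exact_mod_cast hw
  have h2 : (p : ℤ) ^ (kap p + w + r + 1) ∣ (m : ℤ) ^ 2 * (m + 1) * beta p * ((m + 1) * p) ^ r * u := by
    have e1 : (m : ℤ) ^ 2 * (m + 1) * beta p * ((m + 1) * p) ^ r * u =
      ((m : ℤ) ^ 2 * (m + 1)) * beta p * (p : ℤ) ^ r * ((m + 1) ^ r * u) := by
      rw [mul_pow]; ring
    rw [e1, show kap p + w + r + 1 = w + (kap p + 1) + r by ring, pow_add, pow_add]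
    exact Dvd.dvd.mul_right (mul_dvd_mul (mul_dvd_mul hwz hW) (dvd_refl _)) _
  have h4 : (p : ℤ) ^ (kap p + w + r + 1) ∣ 2 * (d p m (p ^ 2 * (p ^ r * u)) - d p m (p ^ r * u)) :=
    dvdr (dvd_add h1 h2) (by ring)
  exact (isCoprime_two' hp hp3 _).dvd_of_dvd_mul_left h4

theorem not_dvd {p : ℕ} (hp : p.Prime) (hp3 : 3 ≤ p) (m w r u c1 : ℕ) (hm : 1 ≤ m)
    (hw : m ^ 2 * (m + 1) = p ^ w * c1) (hc1 : ¬ p ∣ c1) (hu : ¬ p ∣ u)
    (hmr : ¬ p ∣ m + 1 ∨ r = 0) (hW : ¬ (p : ℤ) ^ (kap p + 1) ∣ beta p) :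
    ¬ (p : ℤ) ^ (kap p + w + r + 1) ∣ d p m (p ^ 2 * (p ^ r * u)) - d p m (p ^ r * u) := by
  intro hcon
  have h1 := master hp hp3 m w r u hm ⟨c1, hw⟩
  obtain ⟨c2, hc2⟩ := kap_dvd_beta' hp hp3
  have hpi : Prime (p : ℤ) := Nat.prime_iff_prime_int.mp hp
  have hpz : (p : ℤ) ≠ 0 := hpi.ne_zero
  have hc2' : ¬ (p : ℤ) ∣ c2 := by
    intro h
    apply hW
    rw [hc2, pow_succ]
    exact mul_dvd_mul_left _ h
  have h2 := Dvd.dvd.mul_left hcon 2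
  have h3 : (p : ℤ) ^ (kap p + w + r + 1) ∣ (m : ℤ) ^ 2 * (m + 1) * beta p * ((m + 1) * p) ^ r * u :=
    dvdr (dvd_sub h2 h1) (by ring)
  have hwz : (m : ℤ) ^ 2 * (m + 1) = (p : ℤ) ^ w * c1 := by exact_mod_cast hw
  have e1 : (m : ℤ) ^ 2 * (m + 1) * beta p * ((m + 1) * p) ^ r * u =
      (p : ℤ) ^ (kap p + w + r) * ((c1 : ℤ) * c2 * (m + 1) ^ r * u) := by
    rw [hwz, hc2, mul_pow, pow_add, pow_add]; ring
  rw [e1, pow_succ] at h3
  have h4 := (mul_dvd_mul_iff_left (pow_ne_zero _ hpz)).mp h3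
  rcases hpi.dvd_or_dvd h4 with h5 | h5
  · rcases hpi.dvd_or_dvd h5 with h6 | h6
    · rcases hpi.dvd_or_dvd h6 with h7 | h7
      · exact hc1 (Int.natCast_dvd_natCast.mp h7)
      · exact hc2' h7
    · rcases hmr with h7 | h7
      · have h8 := hpi.dvd_of_dvd_pow h6
        apply h7
        exact_mod_cast h8
      · rw [h7, pow_zero] at h6
        exact hpi.not_dvd_one h6
  · exact hu (Int.natCast_dvd_natCast.mp h5)

theorem beta_three_not : ¬ ((3 : ℕ) : ℤ) ^ (kap 3 + 1) ∣ beta 3 := by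
  rw [beta_three, kap, if_pos rfl]; norm_num

/-- iterated product `lo (lo+1) ... (lo + 2^k - 1)` modulo `M`. -/
def prodMod (M : ℕ) : ℕ → ℕ → ℕ
  | 0, lo => lo % M
  | (k + 1), lo => (prodMod M k lo * prodMod M k (lo + 2 ^ k)) % M

theorem prodMod_spec (M k lo : ℕ) : prodMod M k lo ≡ lo.ascFactorial (2 ^ k) [MOD M] := by
  induction k generalizing lo with
  | zero =>
    rw [pow_zero, show (1 : ℕ) = 0 + 1 by rfl, Nat.ascFactorial_succ]
    simp [prodMod, Nat.ModEq]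
  | succ k ih =>
    rw [prodMod, pow_succ, mul_two, ← Nat.ascFactorial_mul_ascFactorial]
    exact (Nat.mod_modEq _ _).trans ((ih lo).mul (ih (lo + 2 ^ k)))

/-- the product of `16842` consecutive integers modulo `M`. -/
def bigProd (M lo : ℕ) : ℕ :=
  (prodMod M 14 lo * prodMod M 8 (lo + 16384) * prodMod M 7 (lo + 16640) *
    prodMod M 6 (lo + 16768) * prodMod M 3 (lo + 16832) * prodMod M 1 (lo + 16840)) % M

theorem bigProd_spec (M lo : ℕ) : bigProd M lo ≡ lo.ascFactorial 16842 [MOD M] := by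
  have h : lo.ascFactorial 16842 = lo.ascFactorial (2 ^ 14) * (lo + 16384).ascFactorial (2 ^ 8) *
      (lo + 16640).ascFactorial (2 ^ 7) * (lo + 16768).ascFactorial (2 ^ 6) *
      (lo + 16832).ascFactorial (2 ^ 3) * (lo + 16840).ascFactorial (2 ^ 1) := by
    have e1 := Nat.ascFactorial_mul_ascFactorial lo (2 ^ 14) (2 ^ 8)
    have e2 := Nat.ascFactorial_mul_ascFactorial lo (2 ^ 14 + 2 ^ 8) (2 ^ 7)
    have e3 := Nat.ascFactorial_mul_ascFactorial lo (2 ^ 14 + 2 ^ 8 + 2 ^ 7) (2 ^ 6)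
    have e4 := Nat.ascFactorial_mul_ascFactorial lo (2 ^ 14 + 2 ^ 8 + 2 ^ 7 + 2 ^ 6) (2 ^ 3)
    have e5 := Nat.ascFactorial_mul_ascFactorial lo (2 ^ 14 + 2 ^ 8 + 2 ^ 7 + 2 ^ 6 + 2 ^ 3) (2 ^ 1)
    rw [show (16842 : ℕ) = 2 ^ 14 + 2 ^ 8 + 2 ^ 7 + 2 ^ 6 + 2 ^ 3 + 2 ^ 1 by norm_num, ← e5, ← e4,
      ← e3, ← e2, ← e1]
    norm_num
  rw [h, bigProd]
  refine (Nat.mod_modEq _ _).trans ?_
  exact (((((prodMod_spec M 14 lo).mul (prodMod_spec M 8 _)).mul (prodMod_spec M 7 _)).mul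
    (prodMod_spec M 6 _)).mul (prodMod_spec M 3 _)).mul (prodMod_spec M 1 _)

theorem bigProd_eq : bigProd (16843 ^ 4) 16844 = bigProd (16843 ^ 4) 1 := by
  decide +kernel

theorem prime_16843 : Nat.Prime 16843 := by norm_num

theorem wolstenholme_16843 : ((16843 : ℕ) : ℤ) ^ 4 ∣ beta 16843 := by
  have h1 := (bigProd_spec (16843 ^ 4) 16844).symm.trans
    ((show bigProd (16843 ^ 4) 16844 ≡ bigProd (16843 ^ 4) 1 [MOD 16843 ^ 4] by
      rw [bigProd_eq]).trans (bigProd_spec (16843 ^ 4) 1))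
  rw [show (16844 : ℕ) = 16843 + 1 by norm_num, show (1 : ℕ) = 0 + 1 by norm_num,
    Nat.ascFactorial_eq_factorial_mul_choose, Nat.ascFactorial_eq_factorial_mul_choose] at h1
  have h2 : (Nat.factorial 16842 * (16843 + 16842).choose 16842) ≡ Nat.factorial 16842 * 1 [MOD 16843 ^ 4] := by
    have : (0 + 16842).choose 16842 = 1 := by rw [zero_add, Nat.choose_self]
    rw [this] at h1
    exact h1
  have h3 : Nat.Coprime (16843 ^ 4) (Nat.factorial 16842) := by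
    apply Nat.Coprime.pow_left
    rw [Nat.Prime.coprime_iff_not_dvd prime_16843, Nat.Prime.dvd_factorial prime_16843]
    norm_num
  have h4 := Nat.ModEq.cancel_left_of_coprime (by rw [Nat.coprime_iff_gcd_eq_one] at h3; exact h3) h2
  have h5 := (Nat.modEq_iff_dvd.mp h4.symm)
  have h6 : beta 16843 = (((16843 + 16842).choose 16842 : ℕ) : ℤ) - ((1 : ℕ) : ℤ) := by
    rw [beta]
    have e1 : 2 * 16843 - 1 = 16843 + 16842 := by norm_num
    have e2 : 16843 - 1 = 16842 := by norm_num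
    rw [e1, e2, Nat.cast_one]
  rw [h6]
  have h7 : (((16843 ^ 4 : ℕ)) : ℤ) = ((16843 : ℕ) : ℤ) ^ 4 := by push_cast
  rw [← h7]
  exact h5

end Pool.Agent.Lib.MP_26251e_nt
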